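import Pool.Agent.Zk56.MB.Fib

/-!
# Blow-ups
-/

set_option autoImplicit false
set_option linter.all false

open CategoryTheory AlgebraicGeometry

universe u v w

namespace Pool.Agent.Zk56.MB

open Pool.Agent.H914 Pool.Agent.H914.VarClass Pool.Agent.H914.VarClass.Obj Pool.Agent.W492.BB
  Pool.Agent.W550.Corr Pool.Agent.TH133 Pool.Agent.Y107 Pool.Agent.Zk50.SD Pool.Agent.Q73.LS

variable {k : Type u} [Field k] {𝒱 : VarClass k}
  {C : TheoryData.{u, v, 0} 𝒱 ℚ} [hC : IsChowProj C] {K : Type w} [Field K]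
  {H : WeilTheoryData.{u, v, w} C K} [hH : IsWeilProj H]

section gen

variable {S T : Type} [Fintype S] [Fintype T] {Z : 𝒱.Obj}
    {XS : S → 𝒱.Obj} (α : ∀ s, C.A ((XS s).prod Z)) (β : ∀ s, C.A (Z.prod (XS s)))
    {YT : T → 𝒱.Obj} (γ : ∀ t, C.A ((YT t).prod Z))

/-- sums of classes coming from the correspondences -/
def Gen (H : WeilTheoryData.{u, v, w} C K) (z : H.A Z) : Prop :=
  ∃ (x x' : ∀ s, H.A (XS s)) (y : ∀ t, H.A (YT t)),
      z = ∑ s, (H.act (H.cl (α s)) (x s) + H.act (H.cl (tp C (β s))) (x' s)) +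
        ∑ t, H.act (H.cl (γ t)) (y t)

include hC hH

lemma gen_add {z z' : H.A Z} (h : Gen α β γ H z) (h' : Gen α β γ H z') :
    Gen α β γ H (z + z') := by
  obtain ⟨x1, x2, y, rfl⟩ := h
  obtain ⟨x1', x2', y', rfl⟩ := h'
  refine ⟨x1 + x1', x2 + x2', y + y', ?_⟩
  simp only [Pi.add_apply, act_map_add, Finset.sum_add_distrib]
  abel

lemma gen_zero : Gen α β γ H 0 := by
  refine ⟨0, 0, 0, ?_⟩
  simp only [Pi.zero_apply, TheoryData.act_map_zero, add_zero, Finset.sum_const_zero]

lemma gen_sum (ι : Finset ℕ) (F : ℕ → H.A Z) (h : ∀ i ∈ ι, Gen α β γ H (F i)) :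
    Gen α β γ H (∑ i ∈ ι, F i) := by
  induction ι using Finset.induction_on with
  | empty => rw [Finset.sum_empty]; exact gen_zero α β γ
  | insert a s ha ih =>
    rw [Finset.sum_insert ha]
    exact gen_add α β γ (h a (Finset.mem_insert_self a s))
      (ih fun i hi => h i (Finset.mem_insert_of_mem hi))

lemma gen_α (s : S) (x : H.A (XS s)) : Gen α β γ H (H.act (H.cl (α s)) x) := by
  classical
  refine ⟨Pi.single s x, 0, 0, ?_⟩
  simp only [Pi.zero_apply, TheoryData.act_map_zero, add_zero, Finset.sum_const_zero]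
  rw [Finset.sum_eq_single s]
  · rw [Pi.single_eq_same]
  · intro s' _ hs
    rw [Pi.single_eq_of_ne hs]
    exact H.act_map_zero _
  · intro h
    exact absurd (Finset.mem_univ _) h

lemma gen_β (s : S) (x : H.A (XS s)) : Gen α β γ H (H.act (H.cl (tp C (β s))) x) := by
  classical
  refine ⟨0, Pi.single s x, 0, ?_⟩
  simp only [Pi.zero_apply, TheoryData.act_map_zero, add_zero, zero_add, Finset.sum_const_zero]
  rw [Finset.sum_eq_single s]
  · rw [Pi.single_eq_same]
  · intro s' _ hs
    rw [Pi.single_eq_of_ne hs]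
    exact H.act_map_zero _
  · intro h
    exact absurd (Finset.mem_univ _) h

lemma gen_γ (t : T) (y : H.A (YT t)) : Gen α β γ H (H.act (H.cl (γ t)) y) := by
  classical
  refine ⟨0, 0, Pi.single t y, ?_⟩
  simp only [Pi.zero_apply, TheoryData.act_map_zero, add_zero, zero_add, Finset.sum_const_zero]
  rw [Finset.sum_eq_single t]
  · rw [Pi.single_eq_same]
  · intro s' _ hs
    rw [Pi.single_eq_of_ne hs]
    exact H.act_map_zero _
  · intro h
    exact absurd (Finset.mem_univ _) h

end gen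

include hC in
lemma neg_comp' {X Y Z : 𝒱.Obj} (Γ : C.A (X.prod Y)) (Δ : C.A (Y.prod Z)) :
    C.comp (-Γ) Δ = -C.comp Γ Δ := by
  simp only [← compL_apply, map_neg, LinearMap.neg_apply]

include hC in
lemma comp_neg' {X Y Z : 𝒱.Obj} (Γ : C.A (X.prod Y)) (Δ : C.A (Y.prod Z)) :
    C.comp Γ (-Δ) = -C.comp Γ Δ := by
  simp only [← compL_apply, map_neg]

include hC in
lemma graph_graph {X Y Z : 𝒱.Obj} (f : X ⟶ Y) (g : Y ⟶ Z) :
    C.comp (C.graph f) (C.graph g) = C.graph (f ≫ g) := by
  have e1 : Obj.lift (𝟙 X) f ≫ prodMap (𝟙 X) g = Obj.lift (𝟙 X) (f ≫ g) := by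
    apply prod_ext <;> simp
  rw [comp_eq_extR, extR_graph, TheoryData.graph, ← C.push_comp, e1]
  rfl

section blow

variable {W X Z E : 𝒱.Obj} {p : Z ⟶ W} {i : X ⟶ W} {j : E ⟶ Z} {g : E ⟶ X} {ξ : C.A E} {r : ℕ}

/-- the varieties of the self-dual part -/
def YB (W X : 𝒱.Obj) {n : ℕ} : Option (Fin n) → 𝒱.Obj
  | none => W
  | some _ => X

/-- the shifts of the self-dual part -/
def eB (m : ℕ) {n : ℕ} : Option (Fin n) → ℕ
  | none => 0
  | some _ => m + 1

/-- the correspondences of the self-dual part -/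
noncomputable def gB (p : Z ⟶ W) (j : E ⟶ Z) (g : E ⟶ X) (ξ : C.A E) (m : ℕ) {n : ℕ} :
    ∀ t : Option (Fin n), C.A ((YB W X t).prod Z)
  | none => C.cograph p
  | some _ => C.comp (up C g (ξ ^ m)) (C.graph j)

include hC hH

theorem metabolic_of_blowUp (h : BlowUpLike H p i j g ξ r) {m : ℕ} (hm : 2 * m ≤ r)
    (hm' : r ≤ 2 * m + 1) :
    MetabolicBelow H Z (fun _ : Fin m => X) (fun s => (s : ℕ) + 1)
      (fun s => C.comp (up C g (ξ ^ (s : ℕ))) (C.graph j))
      (fun s => -C.comp (C.cograph j) (dn C g (BB C g ξ 1 (r + 1 - (m + 1)) r (m - 1 - s))))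
      (YB W X (n := r - 2 * m)) (eB m) (gB p j g ξ m) := by
  have hξ : ξ ∈ C.gr E 1 := h.degξ
  have hr : E.dim = X.dim + r := h.dimE
  have hf : C.push g (ξ ^ r) = (1 : ℚ) • 1 := by rw [one_smul]; exact h.pushξ
  have hdZ := h.dimZ
  have hdW := h.dimW
  -- compositions through `j`
  have key : ∀ (a : C.A E) (Y : 𝒱.Obj) (Δ : C.A (E.prod Y)),
      C.comp (C.comp (up C g a) (C.graph j)) (C.comp (C.cograph j) Δ) =
        -C.comp (C.comp (up C g a) (C.mulCorr ξ)) Δ := by
    intro a Y Δ
    rw [comp_assoc C, ← comp_assoc C (C.graph j), h.normal, TheoryData.mulCorr, map_neg, neg_comp',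
      comp_neg', comp_assoc C (up C g a)]
    rfl
  have hup : ∀ a : C.A E, C.comp (up C g a) (C.mulCorr ξ) = up C g (a * ξ) := by
    intro a
    rw [up, up, comp_assoc C, mulCorr_mul]
  have key2 : ∀ a b : C.A E, C.comp (C.comp (up C g a) (C.graph j))
      (C.comp (C.cograph j) (dn C g b)) = -C.mulCorr (C.push g (a * ξ * b)) := by
    intro a b
    rw [key, hup, up_dn]
  have htpα : ∀ a : C.A E, tp C (C.comp (up C g a) (C.graph j)) =
      C.comp (C.cograph j) (dn C g a) := by
    intro a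
    rw [tp_comp C (ch_comm C), tp_graph', tp_up]
  have htpβ : ∀ a : C.A E, tp C (-C.comp (C.cograph j) (dn C g a)) =
      -C.comp (up C g a) (C.graph j) := by
    intro a
    rw [← neg_one_smul ℚ, tp_smul, ← htpα, tp_tp, neg_one_smul]
  have hjm : C.graph j ∈ C.gr (E.prod Z) ((E.dim : ℤ) + 1) := by
    have h := graph_mem' (C := C) j
    rwa [show (Z.dim : ℤ) = E.dim + 1 by rw [hdZ, hdW, hr]; push_cast; ring] at h
  have hjm' : C.cograph j ∈ C.gr (Z.prod E) ((Z.dim : ℤ) + 0) := by
    rw [add_zero]; exact cograph_mem j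
  have hαW : ∀ a : C.A E, C.push g a = 0 →
      C.comp (C.comp (up C g a) (C.graph j)) (C.graph p) = 0 := by
    intro a ha
    rw [comp_assoc C, graph_graph, h.square, ← graph_graph, ← comp_assoc C, up, sandwich, ha]
    rw [show C.mulCorr (0 : C.A X) = 0 from map_zero _, zero_comp]
  refine ⟨?_, ?_, ?_, ?_, ?_, ?_, ?_, ?_, ?_, ?_, ?_⟩
  · intro s
    have h1 := comp_mem C (up_mem g (pow_mem hξ (s : ℕ))) hjm
    change _ ∈ C.gr _ _
    rwa [show (X.dim : ℤ) + (((s : ℕ) : ℤ) + 1) = (X.dim : ℤ) + (((s : ℕ) + 1 : ℕ) : ℤ) by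
      push_cast; ring] at h1
  · intro s
    have hs := s.2
    have h1 := comp_mem C hjm' (dn_mem g hr (BB_mem g hr hξ 1 (r + 1 - (m + 1)) (m - 1 - s)))
    change _ ∈ C.gr _ _
    refine Submodule.neg_mem _ ?_
    rwa [show (Z.dim : ℤ) + (0 + (((r + 1 - (m + 1) : ℕ) : ℤ) + ((m - 1 - (s : ℕ) : ℕ) : ℤ) - r)) =
      (Z.dim : ℤ) - (((s : ℕ) + 1 : ℕ) : ℤ) by push_cast; omega] at h1
  · intro s
    have hs := s.2
    rw [comp_neg', key2, neg_neg, ← pow_succ,
      push_BB g hr hξ one_ne_zero hf (by omega) (by omega) (by omega), if_pos (by omega)]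
    rfl
  · intro s s' hss
    have hs := s.2
    have hs' := s'.2
    rw [comp_neg', key2, neg_neg, ← pow_succ,
      push_BB g hr hξ one_ne_zero hf (by omega) (by omega) (by omega), if_neg (by
      intro h
      apply hss
      apply Fin.ext
      omega)]
    exact map_zero _
  · intro s s'
    have hs := s.2
    have hs' := s'.2
    rw [htpα, key2, ← pow_succ, ← pow_add, push_small g hr (pow_mem hξ _) (by omega)]
    rw [show C.mulCorr (0 : C.A X) = 0 from map_zero _, neg_zero]
  · rintro (_ | t)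
    · change Z.dim = W.dim + 2 * 0
      omega
    · have ht := t.2
      change Z.dim = X.dim + 2 * (m + 1)
      omega
  · rintro (_ | t)
    · change C.cograph p ∈ C.gr (W.prod Z) ((W.dim : ℤ) + (0 : ℕ))
      rw [Nat.cast_zero, add_zero]
      exact cograph_mem p
    · have h1 := comp_mem C (up_mem g (pow_mem hξ m)) hjm
      change C.comp (up C g (ξ ^ m)) (C.graph j) ∈ C.gr (X.prod Z) ((X.dim : ℤ) + (m + 1 : ℕ))
      rwa [show (X.dim : ℤ) + ((m : ℤ) + 1) = (X.dim : ℤ) + ((m + 1 : ℕ) : ℤ) by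
        push_cast; ring] at h1
  · rintro (_ | t)
    · refine ⟨1, one_ne_zero, ?_⟩
      change C.comp (C.cograph p) (tp C (C.cograph p)) = (1 : ℚ) • dg C W
      rw [tp_cograph', cograph_graph, h.birational, one_smul]
      rfl
    · have ht := t.2
      refine ⟨-1, by norm_num, ?_⟩
      change C.comp (C.comp (up C g (ξ ^ m)) (C.graph j))
        (tp C (C.comp (up C g (ξ ^ m)) (C.graph j))) = (-1 : ℚ) • dg C X
      rw [htpα, key2, ← pow_succ, ← pow_add, show m + 1 + m = r by omega, h.pushξ, neg_one_smul]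
      rfl
  · rintro (_ | t) (_ | t') htt
    · exact absurd rfl htt
    · have ht := t'.2
      change C.comp (C.cograph p) (tp C (C.comp (up C g (ξ ^ m)) (C.graph j))) = 0
      have h1 := hαW (ξ ^ m) (push_small g hr (pow_mem hξ _) (by omega))
      have h2 := congrArg (tp C) h1
      rw [tp_comp C (ch_comm C), tp_graph', tp_zero] at h2
      exact h2
    · have ht := t.2
      change C.comp (C.comp (up C g (ξ ^ m)) (C.graph j)) (tp C (C.cograph p)) = 0
      rw [tp_cograph']
      exact hαW (ξ ^ m) (push_small g hr (pow_mem hξ _) (by omega))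
    · exfalso
      apply htt
      congr 1
      apply Fin.ext
      have ht := t.2
      have ht' := t'.2
      omega
  · rintro s (_ | t)
    · have hs := s.2
      change C.comp (C.comp (up C g (ξ ^ (s : ℕ))) (C.graph j)) (tp C (C.cograph p)) = 0
      rw [tp_cograph']
      exact hαW _ (push_small g hr (pow_mem hξ _) (by omega))
    · have hs := s.2
      have ht := t.2
      change C.comp (C.comp (up C g (ξ ^ (s : ℕ))) (C.graph j))
        (tp C (C.comp (up C g (ξ ^ m)) (C.graph j))) = 0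
      rw [htpα, key2, ← pow_succ, ← pow_add, push_small g hr (pow_mem hξ _) (by omega)]
      rw [show C.mulCorr (0 : C.A X) = 0 from map_zero _, neg_zero]
  · intro n z hn hz
    obtain ⟨y, x, rfl⟩ := h.generate n z hn hz
    have hcg : ∀ {A B : 𝒱.Obj} (f : A ⟶ B), H.cl (C.graph f) = H.graph f := by
      intro A B f
      rw [TheoryData.graph, TheoryData.graph, H.cl_push, map_one]
    have hcc : ∀ {A B : 𝒱.Obj} (f : A ⟶ B), H.cl (C.cograph f) = H.cograph f := by
      intro A B f
      rw [TheoryData.cograph, TheoryData.cograph, H.cl_push, map_one]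
    have hact : ∀ (a : C.A E) (x : H.A X), H.act (H.cl (C.comp (up C g a) (C.graph j))) x =
        H.push j (H.cl a * H.pull g x) := by
      intro a x
      rw [actH_comp, act_up, hcg, H.act_graph]
    refine gen_add _ _ _ ?_ (gen_sum _ _ _ _ _ fun s hs => ?_)
    · have h1 := gen_γ (fun s : Fin m => C.comp (up C g (ξ ^ (s : ℕ))) (C.graph j))
        (fun s : Fin m => -C.comp (C.cograph j)
          (dn C g (BB C g ξ 1 (r + 1 - (m + 1)) r (m - 1 - s)))) (gB p j g ξ m)
        (H := H) (none : Option (Fin (r - 2 * m))) y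
      have h2 : H.act (H.cl (C.cograph p)) y = H.pull p y := by rw [hcc, H.act_cograph]
      rw [← h2]
      exact h1
    · have hs' := Finset.mem_range.1 hs
      rcases lt_or_ge s m with hsm | hsm
      · have h1 := gen_α (fun s : Fin m => C.comp (up C g (ξ ^ (s : ℕ))) (C.graph j))
          (fun s : Fin m => -C.comp (C.cograph j)
            (dn C g (BB C g ξ 1 (r + 1 - (m + 1)) r (m - 1 - s))))
          (gB p j g ξ m (n := r - 2 * m)) (H := H) ⟨s, hsm⟩ (x s)
        rw [hact, map_pow] at h1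
        exact h1
      rcases lt_or_ge s (r - m) with hsm2 | hsm2
      · have e1 : s = m := by omega
        subst e1
        have h1 := gen_γ (fun t : Fin s => C.comp (up C g (ξ ^ (t : ℕ))) (C.graph j))
          (fun t : Fin s => -C.comp (C.cograph j)
            (dn C g (BB C g ξ 1 (r + 1 - (s + 1)) r (s - 1 - t)))) (gB p j g ξ s)
          (H := H) (some ⟨0, by omega⟩ : Option (Fin (r - 2 * s))) (x s)
        have h2 := hact (ξ ^ s) (x s)
        rw [map_pow] at h2
        rw [← h2]
        exact h1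
      · obtain ⟨l, rfl⟩ := Nat.exists_eq_add_of_le hsm2
        obtain ⟨w, hw⟩ := pow_eq g ξ (one_ne_zero (α := ℚ)) (r + 1 - (m + 1)) r l
        have e0 : r - m + l = r + 1 - (m + 1) + l := by omega
        have e1 : H.push j (H.cl ξ ^ (r - m + l) * H.pull g (x (r - m + l))) =
            ∑ q ∈ Finset.range (l + 1), H.push j (H.cl (BB C g ξ 1 (r + 1 - (m + 1)) r q) *
              H.pull g (H.cl (w q) * x (r - m + l))) := by
          rw [← map_pow, e0, hw, map_sum, Finset.sum_mul, map_sum, ← e0]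
          refine Finset.sum_congr rfl fun q _ => ?_
          rw [ch_comm C, map_mul H.cl, H.cl_pull, map_mul (H.pull g), mul_assoc]
        rw [e1]
        refine gen_sum _ _ _ _ _ fun q hq => ?_
        have hq' := Finset.mem_range.1 hq
        have h1 := gen_β (fun t : Fin m => C.comp (up C g (ξ ^ (t : ℕ))) (C.graph j))
          (fun t : Fin m => -C.comp (C.cograph j)
            (dn C g (BB C g ξ 1 (r + 1 - (m + 1)) r (m - 1 - t))))
          (gB p j g ξ m (n := r - 2 * m)) (H := H) ⟨m - 1 - q, by omega⟩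
          (-(H.cl (w q) * x (r - m + l)))
        have e2 : m - 1 - (m - 1 - q) = q := by omega
        simp only [e2] at h1
        rw [htpβ, map_neg] at h1
        have e3 : ∀ (Γ : H.A (X.prod Z)) (v : H.A X), H.act (-Γ) (-v) = H.act Γ v := by
          intro Γ v
          have e4 : H.act (-Γ) (-v) = - H.act (-Γ) v := map_neg (H.actL (-Γ)) v
          have e5 : H.act (-Γ) v = - H.act Γ v := by
            rw [TheoryData.act_apply, TheoryData.act_apply, neg_mul, map_neg]
          rw [e4, e5, neg_neg]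
        rw [e3, hact] at h1
        exact h1

/-- **Blow-ups.** -/
theorem exists_selfDual_of_blowUp (h : BlowUpLike H p i j g ξ r)
    (hW : ∃ p, IsCK H W p ∧ IsSelfDual C p)
    (hX : (Even r ∧ ∃ p, IsCK H X p) ∨ ∃ p, IsCK H X p ∧ IsSelfDual C p) :
    ∃ π : ℕ → C.A (Z.prod Z), IsCK H Z π ∧ IsSelfDual C π := by
  have hM := metabolic_of_blowUp h (m := r / 2) (by omega) (by omega)
  refine exists_selfDual hM (fun _ => ?_) ?_
  · rcases hX with ⟨_, hX⟩ | ⟨p, hp, _⟩
    · exact hX
    · exact ⟨p, hp⟩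
  · rintro (_ | t)
    · exact hW
    · have ht := t.2
      rcases hX with ⟨⟨l, hl⟩, _⟩ | hX
      · exfalso
        omega
      · exact hX

end blow

end Pool.Agent.Zk56.MB
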