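import Pool.Agent.Zk56.MB.Blow

/-!
# Fibrations whose fibres have algebraic cohomology
-/

set_option autoImplicit false
set_option linter.all false

open CategoryTheory AlgebraicGeometry

universe u v w

namespace Pool.Agent.Zk56.MB

open Pool.Agent.H914 Pool.Agent.H914.VarClass Pool.Agent.H914.VarClass.Obj Pool.Agent.W492.BB
  Pool.Agent.W550.Corr Pool.Agent.TH133 Pool.Agent.Y107 Pool.Agent.Zk50.SD Pool.Agent.Q73.LS

variable {k : Type u} [Field k] {𝒱 : VarClass k}

section chow

variable {C : TheoryData.{u, v, 0} 𝒱 ℚ} [hC : IsChowProj C] {X Z : 𝒱.Obj}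
  {S : Type} [Fintype S]

/-- the dual classes -/
noncomputable def DB (C : TheoryData.{u, v, 0} 𝒱 ℚ) (f : Z ⟶ X) (a b : S → C.A Z) (c : S → ℕ) :
    ℕ → S → C.A Z
  | 0, t => b t
  | n + 1, t => b t - ∑ s ∈ Finset.univ.filter (fun s => c t < c s),
      C.pull f (C.push f (a s * b t)) * DB C f a b c n s

include hC

lemma push_neg_deg (f : Z ⟶ X) {r : ℕ} (hr : Z.dim = X.dim + r) {x : C.A Z} {e : ℤ}
    (hx : x ∈ C.gr Z e) (he : e < r) : C.push f x = 0 := by
  have h := C.push_mem f hx
  rw [C.gr_neg X _ (by rw [hr]; push_cast; omega)] at h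
  exact (Submodule.mem_bot _).1 h

variable {f : Z ⟶ X} {a b : S → C.A Z} {c : S → ℕ} {r M : ℕ}

open Classical in
lemma push_DB (hr : Z.dim = X.dim + r) (ha : ∀ s, a s ∈ C.gr Z (c s))
    (hb : ∀ s, b s ∈ C.gr Z ((r : ℤ) - c s))
    (hab : ∀ s t, c s = c t → C.push f (a s * b t) = if s = t then 1 else 0)
    (hM : ∀ s, c s ≤ M) (n : ℕ) : ∀ t, M ≤ c t + n → ∀ s,
      C.push f (a s * DB C f a b c n t) = if s = t then 1 else 0 := by
  have hlow : ∀ s t, c s < c t → C.push f (a s * b t) = 0 := by
    intro s t hst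
    refine push_neg_deg f hr (C.mul_mem (ha s) (hb t)) (by omega)
  induction n with
  | zero =>
    intro t ht s
    change C.push f (a s * b t) = _
    have h1 := hM t
    have h2 := hM s
    rcases lt_or_eq_of_le (show c s ≤ c t by omega) with h | h
    · rw [hlow s t h, if_neg (by rintro rfl; omega)]
    · exact hab s t h
  | succ n ih =>
    intro t ht s
    rw [DB, mul_sub, map_sub, Finset.mul_sum, map_sum]
    have h1 : ∀ s' ∈ Finset.univ.filter (fun s => c t < c s),
        C.push f (a s * (C.pull f (C.push f (a s' * b t)) * DB C f a b c n s')) =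
          if s = s' then C.push f (a s' * b t) else 0 := by
      intro s' hs'
      have hs'' : c t < c s' := (Finset.mem_filter.1 hs').2
      rw [← mul_assoc, ch_comm C (a s), mul_assoc, C.proj_left, ih s' (by omega) s]
      split_ifs
      · rw [mul_one]
      · rw [mul_zero]
    rw [Finset.sum_congr rfl h1, Finset.sum_ite_eq]
    rcases lt_trichotomy (c s) (c t) with h | h | h
    · rw [hlow s t h, if_neg (by simp; omega), if_neg (by rintro rfl; omega), sub_zero]
    · rw [if_neg (by simp; omega), sub_zero]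
      exact hab s t h
    · rw [if_pos (by simp; exact h), if_neg (by rintro rfl; omega), sub_self]

lemma DB_mem (hr : Z.dim = X.dim + r) (ha : ∀ s, a s ∈ C.gr Z (c s))
    (hb : ∀ s, b s ∈ C.gr Z ((r : ℤ) - c s)) (n : ℕ) :
    ∀ t, DB C f a b c n t ∈ C.gr Z ((r : ℤ) - c t) := by
  induction n with
  | zero => intro t; exact hb t
  | succ n ih =>
    intro t
    rw [DB]
    refine Submodule.sub_mem _ (hb t) (Submodule.sum_mem _ fun s _ => ?_)
    have h1 := C.mul_mem (C.pull_mem f (C.push_mem f (C.mul_mem (ha s) (hb t)))) (ih s)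
    have e1 : (c s : ℤ) + ((r : ℤ) - c t) + 1 * ((X.dim : ℤ) - Z.dim) + ((r : ℤ) - c s) =
        (r : ℤ) - c t := by rw [hr]; push_cast; ring
    rwa [e1] at h1

omit hC in
lemma DB_stable (hM : ∀ s, c s ≤ M) (n : ℕ) : ∀ t, M ≤ c t + n →
    DB C f a b c (n + 1) t = DB C f a b c n t := by
  induction n with
  | zero =>
    intro t ht
    have h1 : Finset.univ.filter (fun s => c t < c s) = ∅ :=
      Finset.filter_false_of_mem fun s _ => by
        have := hM s
        omega
    change b t - ∑ s ∈ Finset.univ.filter (fun s => c t < c s),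
      C.pull f (C.push f (a s * b t)) * b s = b t
    rw [h1, Finset.sum_empty, sub_zero]
  | succ n ih =>
    intro t ht
    rw [DB, DB]
    congr 1
    refine Finset.sum_congr rfl fun s hs => ?_
    have hs' : c t < c s := (Finset.mem_filter.1 hs).2
    rw [ih s (by omega)]

open Classical in
lemma b_eq (hM : ∀ s, c s ≤ M) (t : S) : ∃ w : S → C.A X,
    b t = ∑ s, C.pull f (w s) * DB C f a b c M s := by
  refine ⟨fun s => (if s = t then 1 else 0) + if c t < c s then C.push f (a s * b t) else 0, ?_⟩
  have h1 : DB C f a b c M t = b t - ∑ s ∈ Finset.univ.filter (fun s => c t < c s),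
      C.pull f (C.push f (a s * b t)) * DB C f a b c M s := by
    rw [← DB_stable hM M t (by omega), DB]
  simp only [map_add, add_mul, Finset.sum_add_distrib]
  have h2 : ∑ s, C.pull f (if s = t then (1 : C.A X) else 0) * DB C f a b c M s =
      DB C f a b c M t := by
    rw [Finset.sum_eq_single t]
    · rw [if_pos rfl, map_one, one_mul]
    · intro s _ hs
      rw [if_neg hs, map_zero, zero_mul]
    · intro h
      exact absurd (Finset.mem_univ t) h
  have h3 : ∑ s, C.pull f (if c t < c s then C.push f (a s * b t) else 0) * DB C f a b c M s =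
      ∑ s ∈ Finset.univ.filter (fun s => c t < c s),
        C.pull f (C.push f (a s * b t)) * DB C f a b c M s := by
    rw [Finset.sum_filter]
    refine Finset.sum_congr rfl fun s _ => ?_
    split_ifs
    · rfl
    · rw [map_zero, zero_mul]
  rw [h2, h3, h1]
  abel

end chow

section weil

variable {C : TheoryData.{u, v, 0} 𝒱 ℚ} [hC : IsChowProj C] {K : Type w} [Field K]
  {H : WeilTheoryData.{u, v, w} C K} [hH : IsWeilProj H] {X Z : 𝒱.Obj}
  {S : Type} [Fintype S]

include hC hH

open Classical in
/-- fibrations with hyperbolic algebraic cohomology of the fibres are metabolic -/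
theorem metabolic_of_fibration {f : Z ⟶ X} {r : ℕ} (hr : Z.dim = X.dim + r) {a b : S → C.A Z}
    {c : S → ℕ} (hc : ∀ s, 2 * c s ≤ r) (ha : ∀ s, a s ∈ C.gr Z (c s))
    (hb : ∀ s, b s ∈ C.gr Z ((r : ℤ) - c s))
    (hab : ∀ s t, c s = c t → C.push f (a s * b t) = if s = t then 1 else 0)
    (haa : ∀ s t, c s + c t = r → C.push f (a s * a t) = 0)
    (hgen : ∀ (n : ℕ) (z : H.A Z), n < Z.dim → z ∈ H.gr Z n → ∃ x x' : S → H.A X,
      z = ∑ s, (H.cl (a s) * H.pull f (x s) + H.cl (b s) * H.pull f (x' s))) :
    ∃ B : S → C.A Z, MetabolicBelow H Z (fun _ : S => X) c (fun s => up C f (a s))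
      (fun s => dn C f (B s)) (fun t : Empty => Z) (fun _ => 0) (fun t => t.elim) := by
  obtain ⟨M, hM⟩ : ∃ M, ∀ s, c s ≤ M :=
    ⟨r, fun s => by have := hc s; omega⟩
  have hB := push_DB hr ha hb hab hM M
  refine ⟨DB C f a b c M, ?_, ?_, ?_, ?_, ?_, ?_, ?_, ?_, ?_, ?_, ?_⟩
  · intro s
    exact up_mem f (ha s)
  · intro s
    have h1 := dn_mem f hr (DB_mem (f := f) hr ha hb M s)
    change _ ∈ C.gr _ _
    rwa [show (Z.dim : ℤ) + ((r : ℤ) - c s - r) = (Z.dim : ℤ) - c s by ring] at h1
  · intro s
    rw [up_dn, hB s (by omega) s, if_pos rfl]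
    rfl
  · intro s s' hss
    rw [up_dn, hB s' (by omega) s, if_neg hss]
    exact map_zero _
  · intro s s'
    have h1 := hc s
    have h2 := hc s'
    have h3 : C.push f (a s * a s') = 0 := by
      rcases lt_or_eq_of_le (show c s + c s' ≤ r by omega) with h | h
      · exact push_neg_deg f hr (C.mul_mem (ha s) (ha s')) (by omega)
      · exact haa s s' h
    rw [tp_up, up_dn, h3]
    exact map_zero _
  · exact fun t => t.elim
  · exact fun t => t.elim
  · exact fun t => t.elim
  · exact fun t => t.elim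
  · exact fun _ t => t.elim
  · intro n z hn hz
    obtain ⟨x, x', rfl⟩ := hgen n z hn hz
    have hsum : ∀ {ι : Type} [Fintype ι] (F : ι → H.A Z),
        (∀ i, Gen (fun s => up C f (a s)) (fun s => dn C f (DB C f a b c M s))
          (YT := fun t : Empty => Z) (fun t => t.elim) H (F i)) →
        Gen (fun s => up C f (a s)) (fun s => dn C f (DB C f a b c M s))
          (YT := fun t : Empty => Z) (fun t => t.elim) H (∑ i, F i) := by
      intro ι _ F hF
      refine Finset.sum_induction F (Gen (fun s => up C f (a s))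
        (fun s => dn C f (DB C f a b c M s)) (YT := fun t : Empty => Z) (fun t => t.elim) H)
        (fun _ _ => gen_add _ _ _) (gen_zero _ _ _) fun i _ => hF i
    refine hsum _ fun s => gen_add _ _ _ ?_ ?_
    · have h1 := gen_α (fun s => up C f (a s)) (fun s => dn C f (DB C f a b c M s))
        (YT := fun t : Empty => Z) (fun t => t.elim) (H := H) s (x s)
      rwa [act_up] at h1
    · obtain ⟨w, hw⟩ := b_eq (f := f) (a := a) (b := b) hM s
      have e1 : H.cl (b s) * H.pull f (x' s) = ∑ l, H.cl (DB C f a b c M l) *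
          H.pull f (H.cl (w l) * x' s) := by
        rw [hw, map_sum, Finset.sum_mul]
        refine Finset.sum_congr rfl fun l _ => ?_
        rw [ch_comm C, map_mul H.cl, H.cl_pull, map_mul (H.pull f), mul_assoc]
      rw [e1]
      refine hsum _ fun l => ?_
      have h1 := gen_β (fun s => up C f (a s)) (fun s => dn C f (DB C f a b c M s))
        (YT := fun t : Empty => Z) (fun t => t.elim) (H := H) l (H.cl (w l) * x' s)
      rwa [tp_dn, act_up] at h1

end weil

end Pool.Agent.Zk56.MB
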