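import Mathlib
import Pool.Agent.Zk50.SD.Ring

/-!
# Metabolic sums in rings with involution
-/

set_option autoImplicit false
set_option linter.all false

namespace Pool.Agent.Zk56.MB

open Pool.Agent.Zk50.SD

variable {A : Type*} [Ring A] [Algebra ℚ A] {s : A →+ A}

/-- The data: `q n` isotropic idempotents, `g n` idempotents. -/
structure Data (s : A →+ A) (q g : ℕ → A) (e : A) : Prop where
  qq : ∀ m n, q m * q n = if m = n then q m else 0
  sq : ∀ m n, s (q m) * q n = 0
  gg : ∀ m n, g m * g n = if m = n then g m else 0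
  gq : ∀ m n, g m * q n = 0
  sg : ∀ m n, s (q m) * g n = 0
  qe : ∀ n, q n * e = q n
  se : ∀ n, s e * q n = 0
  sqe : ∀ n, s (q n) * e = 0
  see : s e * e = 0
  ge : ∀ n, g n * e = 0
  seg : ∀ n, s e * g n = 0

variable {q g : ℕ → A} {e : A}

/-- the isotropic idempotents orthogonal to their transposes -/
def FF (s : A →+ A) (q : ℕ → A) (e : A) (n : ℕ) : A := q n - (1 / 2 : ℚ) • (q n * s e)

/-- the self-dual part -/
def GG (s : A →+ A) (g : ℕ → A) (e : A) (n : ℕ) : A := (1 - e) * g n * (1 - s e)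

lemma sF (hs : AntiInv s) (n : ℕ) :
    s (FF s q e n) = s (q n) - (1 / 2 : ℚ) • (e * s (q n)) := by
  rw [FF, map_sub, map_rat_smul, hs.mul, hs.inv]

lemma F_q (h : Data s q g e) (m n : ℕ) : FF s q e m * q n = q m * q n := by
  rw [FF, sub_mul, smul_mul_assoc, mul_assoc, h.se, mul_zero, smul_zero, sub_zero]

lemma F_F (h : Data s q g e) (m n : ℕ) :
    FF s q e m * FF s q e n = if m = n then FF s q e m else 0 := by
  have h1 : FF s q e m * FF s q e n = q m * q n - (1 / 2 : ℚ) • (q m * q n * s e) := by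
    conv_lhs => rw [FF.eq_1 s q e n]
    rw [mul_sub, mul_smul_comm, ← mul_assoc, F_q h]
  rw [h1, h.qq]
  split_ifs with hmn
  · rfl
  · rw [zero_mul, smul_zero, sub_zero]

lemma F_e (h : Data s q g e) (m : ℕ) : FF s q e m * e = q m := by
  rw [FF, sub_mul, smul_mul_assoc, mul_assoc, h.see, mul_zero, smul_zero, sub_zero, h.qe]

lemma se_sq (hs : AntiInv s) (h : Data s q g e) (n : ℕ) : s e * s (q n) = s (q n) := by
  rw [← hs.mul, h.qe]

lemma half_half (x : A) : (1 / 2 : ℚ) • x + (1 / 2 : ℚ) • x = x := by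
  rw [← add_smul]
  norm_num

lemma F_sF (hs : AntiInv s) (h : Data s q g e) (m n : ℕ) :
    FF s q e m * s (FF s q e n) = 0 := by
  rw [sF hs, mul_sub, mul_smul_comm, ← mul_assoc, F_e h]
  have h1 : FF s q e m * s (q n) = q m * s (q n) - (1 / 2 : ℚ) • (q m * s (q n)) := by
    rw [FF, sub_mul, smul_mul_assoc, mul_assoc, se_sq hs h]
  rw [h1, sub_sub, half_half, sub_self]

lemma sF_F (hs : AntiInv s) (h : Data s q g e) (m n : ℕ) :
    s (FF s q e m) * FF s q e n = 0 := by
  have h0 : s (FF s q e m) * q n = 0 := by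
    rw [sF hs, sub_mul, smul_mul_assoc, mul_assoc, h.sq, mul_zero, smul_zero, sub_zero]
  conv_lhs => rw [FF.eq_1 s q e n]
  rw [mul_sub, mul_smul_comm, ← mul_assoc, h0, zero_mul, smul_zero, sub_zero]

lemma sF_sF (hs : AntiInv s) (h : Data s q g e) (m n : ℕ) :
    s (FF s q e m) * s (FF s q e n) = if m = n then s (FF s q e m) else 0 := by
  rw [← hs.mul, F_F h]
  by_cases hmn : m = n
  · rw [if_pos hmn, if_pos hmn.symm, hmn]
  · rw [if_neg hmn, if_neg (Ne.symm hmn), map_zero]

lemma s_one_sub (hs : AntiInv s) : s (1 - s e) = 1 - e := by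
  rw [map_sub, hs.one, hs.inv]

lemma s_one_sub' (hs : AntiInv s) : s (1 - e) = 1 - s e := by
  rw [map_sub, hs.one]

lemma sG (hs : AntiInv s) (n : ℕ) : s (GG s g e n) = GG s (fun n => s (g n)) e n := by
  rw [GG, GG, hs.mul, hs.mul, s_one_sub hs, s_one_sub' hs, mul_assoc]

lemma G_q (h : Data s q g e) (m n : ℕ) : GG s g e m * q n = 0 := by
  rw [GG, mul_assoc, sub_mul 1 (s e), one_mul, h.se, sub_zero, mul_assoc, h.gq, mul_zero]

lemma G_F (h : Data s q g e) (m n : ℕ) : GG s g e m * FF s q e n = 0 := by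
  rw [FF, mul_sub, mul_smul_comm, ← mul_assoc, G_q h, zero_mul, smul_zero, sub_zero]

lemma G_e (h : Data s q g e) (m : ℕ) : GG s g e m * e = 0 := by
  rw [GG, mul_assoc, sub_mul 1 (s e), one_mul, h.see, sub_zero, mul_assoc, h.ge, mul_zero]

lemma G_sF (hs : AntiInv s) (h : Data s q g e) (m n : ℕ) :
    GG s g e m * s (FF s q e n) = 0 := by
  rw [sF hs, mul_sub, mul_smul_comm, ← mul_assoc, G_e h, zero_mul, smul_zero, sub_zero, GG,
    mul_assoc, sub_mul 1 (s e), one_mul, se_sq hs h, sub_self, mul_zero]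

lemma sF_G (hs : AntiInv s) (h : Data s q g e) (m n : ℕ) :
    s (FF s q e m) * GG s g e n = 0 := by
  have h1 : s (q m) * GG s g e n = 0 := by
    have h0 : s (q m) * (1 - e) = s (q m) := by rw [mul_sub, mul_one, h.sqe, sub_zero]
    rw [GG, ← mul_assoc, ← mul_assoc, h0, h.sg, zero_mul]
  rw [sF hs, sub_mul, smul_mul_assoc, mul_assoc, h1, mul_zero, smul_zero, sub_zero]

lemma F_G (h : Data s q g e) (m n : ℕ) : FF s q e m * GG s g e n = 0 := by
  have h1 : FF s q e m * (1 - e) = - ((1 / 2 : ℚ) • (q m * s e)) := by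
    rw [mul_sub, mul_one, F_e h, FF]
    abel
  rw [GG, ← mul_assoc, ← mul_assoc, h1, neg_mul, smul_mul_assoc, mul_assoc (q m), h.seg, mul_zero,
    smul_zero, neg_zero, zero_mul]

lemma G_G (h : Data s q g e) (m n : ℕ) :
    GG s g e m * GG s g e n = if m = n then GG s g e m else 0 := by
  have h1 : g m * (1 - s e) * ((1 - e) * g n) = g m * g n := by
    have h2 : (1 - s e) * ((1 - e) * g n) = g n - e * g n := by
      rw [sub_mul 1 e, one_mul, mul_sub, sub_mul 1 (s e) (g n), one_mul, h.seg, sub_zero,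
        ← mul_assoc, sub_mul 1 (s e) e, one_mul, h.see, sub_zero]
    rw [mul_assoc, h2, mul_sub, ← mul_assoc, h.ge, zero_mul, sub_zero]
  have h3 : GG s g e m * GG s g e n =
      (1 - e) * (g m * (1 - s e) * ((1 - e) * g n)) * (1 - s e) := by
    simp only [GG, mul_assoc]
  rw [h3, h1, h.gg]
  split_ifs
  · rfl
  · rw [mul_zero, zero_mul]

/-- the first half -/
def PP (s : A →+ A) (q g : ℕ → A) (e : A) (d n : ℕ) : A :=
  if n < d then FF s q e n + s (FF s q e (2 * d - n)) + GG s g e n else 0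

theorem P_P (hs : AntiInv s) (h : Data s q g e) (d m n : ℕ) :
    PP s q g e d m * PP s q g e d n = if m = n then PP s q g e d m else 0 := by
  by_cases hm : m < d
  swap
  · rw [PP, if_neg hm, zero_mul]; split_ifs <;> rfl
  by_cases hn : n < d
  swap
  · rw [PP.eq_1 s q g e d n, if_neg hn, mul_zero, if_neg (by omega)]
  rw [PP.eq_1 s q g e d m, PP.eq_1 s q g e d n, if_pos hm, if_pos hn]
  simp only [add_mul, mul_add, F_F h, F_sF hs h, F_G h, sF_F hs h, sF_sF hs h, sF_G hs h, G_F h,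
    G_sF hs h, G_G h, add_zero, zero_add]
  by_cases hmn : m = n
  · subst hmn
    simp
  · rw [if_neg hmn, if_neg hmn, if_neg hmn, if_neg (by omega)]
    simp

theorem sP (hs : AntiInv s) {d : ℕ} (hsd : ∀ n ≤ 2 * d, s (g n) = g (2 * d - n)) {n : ℕ}
    (hn : n < d) : s (PP s q g e d n) =
      s (FF s q e n) + FF s q e (2 * d - n) + GG s g e (2 * d - n) := by
  rw [PP, if_pos hn, map_add, map_add, hs.inv, sG hs, GG, GG]
  simp only [hsd n (by omega)]

theorem P_sP (hs : AntiInv s) (h : Data s q g e) {d : ℕ}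
    (hsd : ∀ n ≤ 2 * d, s (g n) = g (2 * d - n)) (m n : ℕ) :
    PP s q g e d m * s (PP s q g e d n) = 0 := by
  by_cases hm : m < d
  swap
  · rw [PP, if_neg hm, zero_mul]
  by_cases hn : n < d
  swap
  · rw [PP.eq_1 s q g e d n, if_neg hn, map_zero, mul_zero]
  rw [sP hs hsd hn, PP.eq_1 s q g e d m, if_pos hm]
  simp only [add_mul, mul_add, F_F h, F_sF hs h, F_G h, sF_F hs h, sF_sF hs h, sF_G hs h, G_F h,
    G_sF hs h, G_G h, add_zero, zero_add]
  rw [if_neg (by omega), if_neg (by omega), if_neg (by omega)]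
  simp

theorem sP_P (hs : AntiInv s) (h : Data s q g e) {d : ℕ}
    (hsd : ∀ n ≤ 2 * d, s (g n) = g (2 * d - n)) (m n : ℕ) :
    s (PP s q g e d m) * PP s q g e d n = 0 := by
  by_cases hm : m < d
  swap
  · rw [PP, if_neg hm, map_zero, zero_mul]
  by_cases hn : n < d
  swap
  · rw [PP.eq_1 s q g e d n, if_neg hn, mul_zero]
  rw [sP hs hsd hm, PP.eq_1 s q g e d n, if_pos hn]
  simp only [add_mul, mul_add, F_F h, F_sF hs h, F_G h, sF_F hs h, sF_sF hs h, sF_G hs h, G_F h,
    G_sF hs h, G_G h, add_zero, zero_add]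
  rw [if_neg (by omega), if_neg (by omega), if_neg (by omega)]
  simp

end Pool.Agent.Zk56.MB
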