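import Pool.Agent.Zk56.MB.Defs
import Pool.Agent.Zk56.MB.Ring
import Pool.Agent.Zk50.SD.Main
import Pool.Agent.Q73.LS.Base
import Pool.Agent.TH133.Hyper

/-!
# Compositions of sums of correspondences
-/

set_option autoImplicit false
set_option linter.all false

open CategoryTheory AlgebraicGeometry

universe u v w

namespace Pool.Agent.Zk56.MB

open Pool.Agent.H914 Pool.Agent.H914.VarClass Pool.Agent.H914.VarClass.Obj Pool.Agent.W492.BB
  Pool.Agent.W550.Corr Pool.Agent.TH133 Pool.Agent.Y107 Pool.Agent.Zk50.SD Pool.Agent.Q73.LS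

variable {k : Type u} [Field k] {𝒱 : VarClass k}

section ringpart

variable {A : Type*} [Ring A] [Algebra ℚ A] {s : A →+ A} {q g : ℕ → A} {e : A}

lemma sum_all (hs : AntiInv s) {g' : A} {N : ℕ} (hq : ∑ n ∈ Finset.range N, q n = e)
    (hg : ∑ n ∈ Finset.range N, g n = g') :
    ∑ n ∈ Finset.range N, (FF s q e n + s (FF s q e n) + GG s g e n) =
      e + s e - e * s e + (1 - e) * g' * (1 - s e) := by
  rw [Finset.sum_add_distrib, Finset.sum_add_distrib]
  have h1 : ∑ n ∈ Finset.range N, FF s q e n = e - (1 / 2 : ℚ) • (e * s e) := by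
    simp only [FF]
    rw [Finset.sum_sub_distrib, ← Finset.smul_sum, ← Finset.sum_mul, hq]
  have h2 : ∑ n ∈ Finset.range N, s (FF s q e n) = s e - (1 / 2 : ℚ) • (e * s e) := by
    rw [← map_sum, h1, map_sub, map_rat_smul, hs.mul, hs.inv]
  have h3 : ∑ n ∈ Finset.range N, GG s g e n = (1 - e) * g' * (1 - s e) := by
    simp only [GG]
    rw [← Finset.sum_mul, ← Finset.mul_sum, hg]
  rw [h1, h2, h3]
  have h4 := half_half (e * s e)
  have h5 : e - (1 / 2 : ℚ) • (e * s e) + (s e - (1 / 2 : ℚ) • (e * s e)) =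
      e + s e - ((1 / 2 : ℚ) • (e * s e) + (1 / 2 : ℚ) • (e * s e)) := by abel
  rw [h5, h4]

end ringpart

section chow

variable {C : TheoryData.{u, v, 0} 𝒱 ℚ} [hC : IsChowProj C] {X Y Z W : 𝒱.Obj}

include hC

variable (C Z) in
lemma tpR_antiInv : AntiInv (tpR C Z) where
  mul _ _ := tpR_mul _ _
  inv _ := tpR_tpR _
  one := tpR_one

lemma dualCK_self {π : ℕ → C.A (X.prod X)} (h : IsSelfDual C π) (hout : ∀ i, 2 * X.dim < i → π i = 0)
    : dualCK C π = π := by
  funext n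
  unfold dualCK
  split_ifs with hn
  · rw [h _ (by omega)]
    congr 1
    omega
  · rw [hout n (by omega)]

lemma smul_comp'' (q : ℚ) (Γ : C.A (X.prod Y)) (Δ : C.A (Y.prod Z)) :
    (C.comp (q • Γ) Δ) = q • (C.comp Γ Δ) := by
  simp only [← compL_apply, map_smul, LinearMap.smul_apply]

lemma comp_smul'' (q : ℚ) (Γ : C.A (X.prod Y)) (Δ : C.A (Y.prod Z)) :
    (C.comp Γ (q • Δ)) = q • (C.comp Γ Δ) := by
  simp only [← compL_apply, map_smul]

variable {S T : Type} [Fintype S] [Fintype T] {XS : S → 𝒱.Obj} {YT : T → 𝒱.Obj}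

lemma comp_sum_zero (a : ∀ s, C.A (W.prod (XS s))) (α : ∀ s, C.A ((XS s).prod Z))
    (δ : ∀ t, C.A (Z.prod (YT t))) (b : ∀ t, C.A ((YT t).prod Y))
    (h0 : ∀ s t, C.comp (α s) (δ t) = 0) :
    C.comp (∑ s, C.comp (a s) (α s)) (∑ t, C.comp (δ t) (b t)) = 0 := by
  rw [comp_sum]
  refine Finset.sum_eq_zero fun t _ => ?_
  rw [sum_comp]
  refine Finset.sum_eq_zero fun s _ => ?_
  rw [comp_assoc C, ← comp_assoc C (α s), h0, zero_comp, comp_zero]

lemma comp_sum_diag (a : ∀ s, C.A (W.prod (XS s))) (α : ∀ s, C.A ((XS s).prod Z))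
    (β : ∀ s, C.A (Z.prod (XS s))) (b : ∀ s, C.A ((XS s).prod Y)) (N : S → ℚ)
    (h1 : ∀ s, C.comp (α s) (β s) = N s • dg C (XS s))
    (h0 : ∀ s s', s ≠ s' → C.comp (α s) (β s') = 0) :
    C.comp (∑ s, C.comp (a s) (α s)) (∑ s, C.comp (β s) (b s)) =
      ∑ s, N s • C.comp (a s) (b s) := by
  classical
  rw [comp_sum]
  refine Finset.sum_congr rfl fun t _ => ?_
  rw [sum_comp, Finset.sum_eq_single t]
  · rw [comp_assoc C, ← comp_assoc C (α t), h1, smul_comp'', dg_comp, comp_smul'']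
  · intro s _ hs
    rw [comp_assoc C, ← comp_assoc C (α s), h0 s t hs, zero_comp, comp_zero]
  · intro h
    exact absurd (Finset.mem_univ t) h

lemma comp_diag (α : ∀ s, C.A ((XS s).prod Z))
    (β : ∀ s, C.A (Z.prod (XS s))) (b : ∀ s, C.A ((XS s).prod Y)) (N : S → ℚ)
    (h1 : ∀ s, C.comp (α s) (β s) = N s • dg C (XS s))
    (h0 : ∀ s s', s ≠ s' → C.comp (α s) (β s') = 0) (s : S) :
    C.comp (α s) (∑ s, C.comp (β s) (b s)) = N s • b s := by
  classical
  rw [comp_sum, Finset.sum_eq_single s]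
  · rw [← comp_assoc C, h1, smul_comp'', dg_comp]
  · intro s' _ hs
    rw [← comp_assoc C, h0 s s' (Ne.symm hs), zero_comp]
  · intro h
    exact absurd (Finset.mem_univ s) h

lemma comp_zero' (α : C.A (X.prod Z)) (δ : ∀ t, C.A (Z.prod (YT t))) (b : ∀ t, C.A ((YT t).prod Y))
    (h0 : ∀ t, C.comp α (δ t) = 0) : C.comp α (∑ t, C.comp (δ t) (b t)) = 0 := by
  rw [comp_sum]
  refine Finset.sum_eq_zero fun t _ => ?_
  rw [← comp_assoc C, h0, zero_comp]

end chow

section weil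

variable {C : TheoryData.{u, v, 0} 𝒱 ℚ} [hC : IsChowProj C] {K : Type w} [Field K]
  {H : WeilTheoryData.{u, v, w} C K} [hH : IsWeilProj H] {X Y Z : 𝒱.Obj}

include hC hH

/-- the transpose of a homogeneous correspondence -/
lemma act_tp_zero {σ : Cor C Z} (h0 : σ ∈ cor0 C Z) {j : ℤ}
    (hσ : ∀ (m : ℤ) (x : H.A Z), x ∈ H.gr Z m → m ≠ j → actH C Z H σ x = 0)
    (m : ℤ) (b : H.A Z) (hb : b ∈ H.gr Z m) (hm : m ≠ 2 * Z.dim - j) :
    actH C Z H (tpR C Z σ) b = 0 := by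
  apply H.nondeg
  have h2 : H.tr Z ∘ₗ LinearMap.mulLeft K (actH C Z H (tpR C Z σ) b) = 0 := by
    apply ext_gr H
    intro n a ha
    have h3 : H.tr Z (actH C Z H (tpR C Z σ) b * a) = H.tr Z (b * actH C Z H σ a) :=
      tr_act' H (X := Z) (Y := Z) σ a b
    rw [LinearMap.comp_apply, LinearMap.mulLeft_apply, h3, LinearMap.zero_apply]
    by_cases hn : n = j
    · subst hn
      exact tr_zero H (H.mul_mem hb (actH_mem0 h0 ha)) (by omega)
    · rw [hσ n a ha hn, mul_zero, map_zero]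
  exact fun a => LinearMap.congr_fun h2 a

end weil

end Pool.Agent.Zk56.MB
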