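import Pool.Agent.Zk56.MB.Pub
import Pool.Agent.Zk56.MB.Cell

/-!
# Metabolic sums of motives: comparison of the definitions
-/

set_option autoImplicit false

open CategoryTheory AlgebraicGeometry

universe u v w

namespace Pool.Agent.Zk56.MB.Pub

open Pool.Agent.H914 Pool.Agent.H914.VarClass Pool.Agent.H914.VarClass.Obj Pool.Agent.W492.BB
  Pool.Agent.W550.Corr Pool.Agent.TH133

variable {k : Type u} [Field k] {𝒱 : VarClass k} {C : TheoryData.{u, v, 0} 𝒱 ℚ} {K : Type w}
  [Field K] {H : WeilTheoryData.{u, v, w} C K}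

lemma MetabolicBelow.conv {Z : 𝒱.Obj} {S T : Type} [Fintype S] [Fintype T]
    {X : S → 𝒱.Obj} {c : S → ℕ} {α : ∀ s, C.A ((X s).prod Z)} {β : ∀ s, C.A (Z.prod (X s))}
    {Y : T → 𝒱.Obj} {e : T → ℕ} {γ : ∀ t, C.A ((Y t).prod Z)}
    (h : MetabolicBelow H X c α β Y e γ) : MB.MetabolicBelow H Z X c α β Y e γ :=
  ⟨h.factors.degα, h.factors.degβ, h.factors.left, h.factors.orth, h.factors.isotropic,
    h.isometries.dimγ, h.isometries.degγ, h.isometries.selfγ, h.isometries.orthγ, h.orth, h.span⟩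

/-- **Fibrations with hyperbolic algebraic cohomology of the fibres.** -/
theorem exists_selfDual_of_classes [IsChowProj C] [IsWeilProj H] {Z X : 𝒱.Obj} {f : Z ⟶ X} {r : ℕ}
    {S : Type} [Fintype S] {c : S → ℕ} {a b : S → C.A Z} (h : HyperbolicClasses C f r c a b)
    (hs : ClassesSpanBelow H f a b) (hX : HasCK H X) : HasSelfDualCK H Z := by
  classical
  obtain ⟨B, hB⟩ := metabolic_of_fibration (H := H) h.dim_eq h.low h.dega h.degb
    (fun s t hst => by
      by_cases e : s = t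
      · subst e
        rw [if_pos rfl]
        exact h.dual s
      · rw [if_neg e]
        exact h.orth s t e hst) h.isotropic hs
  exact exists_selfDual hB (fun _ => hX) (fun t => t.elim)

lemma BlowUpLike.conv {W X Z E : 𝒱.Obj} {p : Z ⟶ W} {i : X ⟶ W} {j : E ⟶ Z} {g : E ⟶ X} {ξ : C.A E}
    {r : ℕ} (h : BlowUpLike H p i j g ξ r) : MB.BlowUpLike H p i j g ξ r := by
  refine ⟨h.dimZ, h.dimE, h.dimW, h.square, h.birational, h.deg, h.push, h.normal, ?_⟩
  intro n z hn hz
  obtain ⟨y, x, hyx⟩ := h.span n z hn hz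
  refine ⟨y, x, ?_⟩
  rw [hyx]
  simp only [clPull, map_pow]

end Pool.Agent.Zk56.MB.Pub
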