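import Pool.Agent.TH133.Defs

/-!
# Metabolic sums of motives: definitions
-/

set_option autoImplicit false

open CategoryTheory AlgebraicGeometry

universe u v w

namespace Pool.Agent.Zk56.MB

open Pool.Agent.H914 Pool.Agent.H914.VarClass Pool.Agent.H914.VarClass.Obj Pool.Agent.W492.BB
  Pool.Agent.W550.Corr Pool.Agent.TH133

variable {k : Type u} [Field k] {𝒱 : VarClass k} {C : TheoryData.{u, v, 0} 𝒱 ℚ} {K : Type w}
  [Field K] (H : WeilTheoryData.{u, v, w} C K)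

/-- The cohomology of `Z` below the middle degree is generated by a metabolic and a self-dual part:

* `α s : h(X s)(-c s) → h(Z)` and `β s : h(Z) → h(X s)(-c s)` are finitely many correspondences with
  `β s' ∘ α s = δ_{ss'}` and `ᵗ(α s') ∘ α s = 0` (the `α s` are isotropic);
* `γ t : h(Y t)(-e t) → h(Z)`, where `dim Z = dim (Y t) + 2 e t`, are finitely many correspondences
  with `ᵗ(γ t) ∘ γ t = N ≠ 0` and `ᵗ(γ t') ∘ γ t = 0` for `t ≠ t'`, `ᵗ(γ t) ∘ α s = 0`;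
* every class in `H^n(Z)`, `n < dim Z`, is a sum of classes `α s (x)`, `ᵗ(β s) (x')`, `γ t (y)`. -/
structure MetabolicBelow (Z : 𝒱.Obj) {S T : Type} [Fintype S] [Fintype T]
    (X : S → 𝒱.Obj) (c : S → ℕ) (α : ∀ s, C.A ((X s).prod Z)) (β : ∀ s, C.A (Z.prod (X s)))
    (Y : T → 𝒱.Obj) (e : T → ℕ) (γ : ∀ t, C.A ((Y t).prod Z)) : Prop where
  degα : ∀ s, C.Deg (((X s).dim : ℤ) + c s) (α s)
  degβ : ∀ s, C.Deg ((Z.dim : ℤ) - c s) (β s)
  left : ∀ s, C.comp (α s) (β s) = dg C (X s)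
  orth : ∀ s s', s ≠ s' → C.comp (α s) (β s') = 0
  isotropic : ∀ s s', C.comp (α s) (tp C (α s')) = 0
  dimγ : ∀ t, Z.dim = (Y t).dim + 2 * e t
  degγ : ∀ t, C.Deg (((Y t).dim : ℤ) + e t) (γ t)
  selfγ : ∀ t, ∃ N : ℚ, N ≠ 0 ∧ C.comp (γ t) (tp C (γ t)) = N • dg C (Y t)
  orthγ : ∀ t t', t ≠ t' → C.comp (γ t) (tp C (γ t')) = 0
  orthαγ : ∀ s t, C.comp (α s) (tp C (γ t)) = 0
  generate : ∀ (n : ℕ) (z : H.A Z), n < Z.dim → H.Deg n z →
    ∃ (x x' : ∀ s, H.A (X s)) (y : ∀ t, H.A (Y t)),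
      z = ∑ s, (H.act (H.cl (α s)) (x s) + H.act (H.cl (tp C (β s))) (x' s)) +
        ∑ t, H.act (H.cl (γ t)) (y t)

/-- `f : Z → X` is a fibration by varieties with the cohomology of projective spaces: `Z` is of
dimension `dim X + r`, `ξ ∈ CH^1(Z)` satisfies `f_* (ξ^r) = N ≠ 0`, and every class in `H^n(Z)`,
`n < dim Z`, is a sum of classes `ξ^j f^* (x)`, `j ≤ r`. -/
structure ProjectiveLike {Z X : 𝒱.Obj} (f : Z ⟶ X) (ξ : C.A Z) (r : ℕ) : Prop where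
  dim_eq : Z.dim = X.dim + r
  deg : C.Deg 1 ξ
  push : ∃ N : ℚ, N ≠ 0 ∧ C.push f (ξ ^ r) = N • 1
  generate : ∀ (n : ℕ) (z : H.A Z), n < Z.dim → H.Deg n z →
    ∃ x : ℕ → H.A X, z = ∑ j ∈ Finset.range (r + 1), H.cl ξ ^ j * H.pull f (x j)

/-- Formal properties of the blow-up `p : Z → W` of `i : X → W` of codimension `r + 1`, with
exceptional divisor `j : E → Z`, `g : E → X`, and `ξ ∈ CH^1(E)` minus the class of the normal bundle
of `E` (the hyperplane class of the projective bundle `E` over `X`):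
`p j = i g`, `p_* 1 = 1`, `j^* j_* = - ξ`, `g_* (ξ^r) = 1`, and every class in `H^n(Z)`, `n < dim Z`, is
a sum of a class `p^* (y)` and of classes `j_* (ξ^s g^* (x))`, `s < r`. -/
structure BlowUpLike {W X Z E : 𝒱.Obj} (p : Z ⟶ W) (i : X ⟶ W) (j : E ⟶ Z) (g : E ⟶ X) (ξ : C.A E)
    (r : ℕ) : Prop where
  dimZ : Z.dim = W.dim
  dimE : E.dim = X.dim + r
  dimW : W.dim = X.dim + r + 1
  square : j ≫ p = g ≫ i
  birational : C.push p 1 = 1
  degξ : C.Deg 1 ξ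
  pushξ : C.push g (ξ ^ r) = 1
  normal : C.comp (C.graph j) (C.cograph j) = C.mulCorr (-ξ)
  generate : ∀ (n : ℕ) (z : H.A Z), n < Z.dim → H.Deg n z → ∃ (y : H.A W) (x : ℕ → H.A X),
    z = H.pull p y + ∑ s ∈ Finset.range r, H.push j (H.cl ξ ^ s * H.pull g (x s))

end Pool.Agent.Zk56.MB
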