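import Pool.Agent.Zk56.MB.Main

/-!
# Fibrations by varieties with the cohomology of projective spaces
-/

set_option autoImplicit false
set_option linter.all false

open CategoryTheory AlgebraicGeometry

universe u v w

namespace Pool.Agent.Zk56.MB

open Pool.Agent.H914 Pool.Agent.H914.VarClass Pool.Agent.H914.VarClass.Obj Pool.Agent.W492.BB
  Pool.Agent.W550.Corr Pool.Agent.TH133 Pool.Agent.Y107 Pool.Agent.Zk50.SD Pool.Agent.Q73.LS

variable {k : Type u} [Field k] {𝒱 : VarClass k}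

section chow

variable {C : TheoryData.{u, v, 0} 𝒱 ℚ} [hC : IsChowProj C] {X Z : 𝒱.Obj}

include hC

lemma mulCorr_mem {a : C.A Z} {e : ℤ} (ha : a ∈ C.gr Z e) :
    C.mulCorr a ∈ C.gr (Z.prod Z) ((Z.dim : ℤ) + e) := by
  have h := C.push_mem (Obj.lift (𝟙 Z) (𝟙 Z)) ha
  have e1 : e + 1 * (((Z.prod Z).dim : ℤ) - (Z.dim : ℤ)) = Z.dim + e := by
    rw [dim_prod]; push_cast; ring
  rwa [e1] at h

lemma cograph_mulCorr (f : Z ⟶ X) (a : C.A Z) :
    C.comp (C.cograph f) (C.mulCorr a) = C.push (Obj.lift f (𝟙 Z)) a := by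
  rw [comp_mulCorr, TheoryData.cograph, ← C.proj_left, ← C.pull_comp, lift_snd, C.pull_id,
    mul_one]

lemma sandwich (f : Z ⟶ X) (a : C.A Z) :
    C.comp (C.comp (C.cograph f) (C.mulCorr a)) (C.graph f) = C.mulCorr (C.push f a) := by
  have e1 : Obj.lift f (𝟙 Z) ≫ prodMap (𝟙 X) f = f ≫ Obj.lift (𝟙 X) (𝟙 X) := by
    apply prod_ext <;> simp
  rw [cograph_mulCorr, comp_eq_extR, extR_graph, ← C.push_comp, e1, C.push_comp]
  rfl

lemma mulCorr_mul (a b : C.A Z) : C.comp (C.mulCorr a) (C.mulCorr b) = C.mulCorr (a * b) := by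
  rw [comp_mulCorr, TheoryData.mulCorr, TheoryData.mulCorr, ← C.proj_left, ← C.pull_comp,
    lift_snd, C.pull_id, ch_comm C]

/-- `x ↦ a f^* x` -/
noncomputable def up (C : TheoryData.{u, v, 0} 𝒱 ℚ) (f : Z ⟶ X) (a : C.A Z) : C.A (X.prod Z) :=
  C.comp (C.cograph f) (C.mulCorr a)

/-- `z ↦ f_* (b z)` -/
noncomputable def dn (C : TheoryData.{u, v, 0} 𝒱 ℚ) (f : Z ⟶ X) (b : C.A Z) : C.A (Z.prod X) :=
  C.comp (C.mulCorr b) (C.graph f)

lemma up_dn (f : Z ⟶ X) (a b : C.A Z) :
    C.comp (up C f a) (dn C f b) = C.mulCorr (C.push f (a * b)) := by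
  rw [up, dn, ← comp_assoc C, comp_assoc C (C.cograph f), mulCorr_mul, sandwich]

lemma tp_up (f : Z ⟶ X) (a : C.A Z) : tp C (up C f a) = dn C f a := by
  rw [up, dn, tp_comp C (ch_comm C), tp_mulCorr, tp_cograph']

lemma tp_dn (f : Z ⟶ X) (a : C.A Z) : tp C (dn C f a) = up C f a := by
  rw [← tp_up, tp_tp]

lemma up_mem (f : Z ⟶ X) {a : C.A Z} {e : ℤ} (ha : a ∈ C.gr Z e) :
    up C f a ∈ C.gr (X.prod Z) ((X.dim : ℤ) + e) := by
  have h := comp_mem C (e := 0) (by rw [add_zero]; exact cograph_mem f) (mulCorr_mem ha)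
  rwa [zero_add] at h

lemma dn_mem (f : Z ⟶ X) {r : ℕ} (hr : Z.dim = X.dim + r) {b : C.A Z} {e : ℤ}
    (hb : b ∈ C.gr Z e) : dn C f b ∈ C.gr (Z.prod X) ((Z.dim : ℤ) + (e - r)) := by
  have h1 : C.graph f ∈ C.gr (Z.prod X) ((Z.dim : ℤ) + -r) := by
    have h := graph_mem' (C := C) f
    have e : (X.dim : ℤ) = Z.dim + -r := by rw [hr]; push_cast; ring
    rwa [e] at h
  exact comp_mem C (mulCorr_mem hb) h1

lemma push_small (f : Z ⟶ X) {r : ℕ} (hr : Z.dim = X.dim + r) {ξ : C.A Z} {n : ℕ}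
    (hξ : ξ ∈ C.gr Z n) (hn : n < r) : C.push f ξ = 0 := by
  have h := C.push_mem f hξ
  rw [C.gr_neg X _ (by rw [hr]; push_cast; omega)] at h
  exact (Submodule.mem_bot _).1 h

/-- the dual classes -/
noncomputable def BB (C : TheoryData.{u, v, 0} 𝒱 ℚ) (f : Z ⟶ X) (ξ : C.A Z) (N : ℚ) (n₀ r : ℕ) :
    ℕ → C.A Z
  | i => N⁻¹ • (ξ ^ (n₀ + i) - ∑ j : Fin i, C.pull f (C.push f (ξ ^ (r + i - j))) *
      BB C f ξ N n₀ r j)
termination_by i => i
decreasing_by exact j.2

omit hC in
lemma BB_eq (f : Z ⟶ X) (ξ : C.A Z) (N : ℚ) (n₀ r i : ℕ) : BB C f ξ N n₀ r i =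
    N⁻¹ • (ξ ^ (n₀ + i) - ∑ j ∈ Finset.range i, C.pull f (C.push f (ξ ^ (r + i - j))) *
      BB C f ξ N n₀ r j) := by
  rw [BB, Finset.sum_range]

lemma pow_mem {ξ : C.A Z} (hξ : ξ ∈ C.gr Z 1) (n : ℕ) : ξ ^ n ∈ C.gr Z n := by
  induction n with
  | zero => rw [pow_zero]; exact C.one_mem Z
  | succ n ih =>
    rw [pow_succ]
    have := C.mul_mem ih hξ
    rwa [show ((n : ℤ) + 1) = ((n + 1 : ℕ) : ℤ) by push_cast; ring] at this

lemma BB_mem (f : Z ⟶ X) {r : ℕ} (hr : Z.dim = X.dim + r) {ξ : C.A Z} (hξ : ξ ∈ C.gr Z 1) (N : ℚ)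
    (n₀ i : ℕ) : BB C f ξ N n₀ r i ∈ C.gr Z ((n₀ : ℤ) + i) := by
  induction i using Nat.strong_induction_on with
  | _ i ih =>
    rw [BB_eq]
    refine Submodule.smul_mem _ _ (Submodule.sub_mem _ ?_ (Submodule.sum_mem _ fun j hj => ?_))
    · have := pow_mem hξ (n₀ + i)
      rwa [show (((n₀ + i : ℕ)) : ℤ) = (n₀ : ℤ) + i by push_cast; ring] at this
    · have hj' := Finset.mem_range.1 hj
      have h1 := C.mul_mem (C.pull_mem f (C.push_mem f (pow_mem hξ (r + i - j)))) (ih j hj')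
      have e1 : ((r + i - j : ℕ) : ℤ) + 1 * ((X.dim : ℤ) - Z.dim) + ((n₀ : ℤ) + j) = (n₀ : ℤ) + i := by
        rw [hr]; push_cast [show j ≤ r + i by omega]; ring
      rwa [e1] at h1

/-- the pairing -/
lemma push_BB (f : Z ⟶ X) {r : ℕ} (hr : Z.dim = X.dim + r) {ξ : C.A Z} (hξ : ξ ∈ C.gr Z 1) {N : ℚ}
    (hN : N ≠ 0) (hf : C.push f (ξ ^ r) = N • 1) {m : ℕ} (hm : m ≤ r + 1) {i : ℕ} (hi : i < m)
    {s : ℕ} (hs : s < m) : C.push f (ξ ^ s * BB C f ξ N (r + 1 - m) r i) =
      if s + i + 1 = m then 1 else 0 := by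
  induction i using Nat.strong_induction_on generalizing s with
  | _ i ih =>
    rw [BB_eq, mul_smul_comm, mul_sub, map_smul, map_sub, ← pow_add, Finset.mul_sum, map_sum]
    have h1 : ∀ j ∈ Finset.range i, C.push f (ξ ^ s * (C.pull f (C.push f (ξ ^ (r + i - j))) *
        BB C f ξ N (r + 1 - m) r j)) = if s + j + 1 = m then C.push f (ξ ^ (r + i - j)) else 0 := by
      intro j hj
      have hj' := Finset.mem_range.1 hj
      rw [← mul_assoc, ch_comm C (ξ ^ s), mul_assoc, C.proj_left, ih j hj' (by omega) hs]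
      split_ifs
      · rw [mul_one]
      · rw [mul_zero]
    rw [Finset.sum_congr rfl h1]
    rcases lt_trichotomy (s + i + 1) m with h | h | h
    · rw [if_neg (by omega), push_small f hr (pow_mem hξ _) (by omega), Finset.sum_eq_zero, sub_zero,
        smul_zero]
      intro j hj
      have hj' := Finset.mem_range.1 hj
      rw [if_neg (by omega)]
    · rw [if_pos h, show s + (r + 1 - m + i) = r by omega, hf, Finset.sum_eq_zero, sub_zero,
        smul_smul, inv_mul_cancel₀ hN, one_smul]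
      intro j hj
      have hj' := Finset.mem_range.1 hj
      rw [if_neg (by omega)]
    · rw [if_neg (by omega), Finset.sum_eq_single (m - 1 - s), if_pos (by omega),
        show r + i - (m - 1 - s) = s + (r + 1 - m + i) by omega, sub_self, smul_zero]
      · intro j hj hne
        rw [if_neg (by omega)]
      · intro hni
        exact absurd (Finset.mem_range.2 (by omega)) hni

/-- the powers in terms of the dual classes -/
lemma pow_eq (f : Z ⟶ X) (ξ : C.A Z) {N : ℚ} (hN : N ≠ 0) (n₀ r i : ℕ) :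
    ∃ w : ℕ → C.A X, ξ ^ (n₀ + i) =
      ∑ j ∈ Finset.range (i + 1), C.pull f (w j) * BB C f ξ N n₀ r j := by
  refine ⟨fun j => if j = i then N • 1 else C.push f (ξ ^ (r + i - j)), ?_⟩
  rw [Finset.sum_range_succ]
  beta_reduce
  rw [if_pos rfl, map_smul, map_one]
  have h1 : ∑ j ∈ Finset.range i, C.pull f (if j = i then N • 1 else C.push f (ξ ^ (r + i - j))) *
      BB C f ξ N n₀ r j = ∑ j ∈ Finset.range i, C.pull f (C.push f (ξ ^ (r + i - j))) *
      BB C f ξ N n₀ r j := by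
    refine Finset.sum_congr rfl fun j hj => ?_
    have hj' := Finset.mem_range.1 hj
    rw [if_neg (by omega)]
  rw [h1, smul_mul_assoc, one_mul, BB_eq f ξ N n₀ r i, smul_smul, mul_inv_cancel₀ hN, one_smul]
  abel

end chow

section weil

variable {C : TheoryData.{u, v, 0} 𝒱 ℚ} [hC : IsChowProj C] {K : Type w} [Field K]
  {H : WeilTheoryData.{u, v, w} C K} [hH : IsWeilProj H] {X Z : 𝒱.Obj}

include hC hH

lemma act_up (f : Z ⟶ X) (a : C.A Z) (x : H.A X) :
    H.act (H.cl (up C f a)) x = H.cl a * H.pull f x := by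
  have h1 : H.cl (C.cograph f) = H.cograph f := by
    rw [TheoryData.cograph, TheoryData.cograph, H.cl_push, map_one]
  have h2 : H.cl (C.mulCorr a) = H.mulCorr (H.cl a) := by
    rw [TheoryData.mulCorr, TheoryData.mulCorr, H.cl_push]
  rw [up, actH_comp, h1, h2, H.act_cograph, H.act_mulCorr]

/-- projective-like fibrations are metabolic -/
theorem metabolic_of_projectiveLike (f : Z ⟶ X) {ξ : C.A Z} {r : ℕ} (h : ProjectiveLike H f ξ r)
    {m : ℕ} (hm : 2 * m ≤ r + 1) (hm' : r ≤ 2 * m) :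
    ∃ N : ℚ, MetabolicBelow H Z (fun _ : Fin m => X) (fun s => (s : ℕ))
      (fun s => up C f (ξ ^ (s : ℕ))) (fun s => dn C f (BB C f ξ N (r + 1 - m) r (m - 1 - s)))
      (fun _ : Fin (r + 1 - 2 * m) => X) (fun _ => m) (fun _ => up C f (ξ ^ m)) := by
  obtain ⟨N, hN, hf⟩ := h.push
  have hr := h.dim_eq
  have hξ : ξ ∈ C.gr Z 1 := h.deg
  have hdg : C.mulCorr (1 : C.A X) = dg C X := rfl
  refine ⟨N, ?_, ?_, ?_, ?_, ?_, ?_, ?_, ?_, ?_, ?_, ?_⟩
  · intro s
    exact up_mem f (pow_mem hξ _)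
  · intro s
    have h1 := dn_mem f hr (BB_mem f hr hξ N (r + 1 - m) (m - 1 - s))
    have hs := s.2
    change _ ∈ C.gr _ _
    rwa [show (Z.dim : ℤ) + (((r + 1 - m : ℕ) : ℤ) + ((m - 1 - (s : ℕ) : ℕ) : ℤ) - r) =
      (Z.dim : ℤ) - ((s : ℕ) : ℤ) by omega] at h1
  · intro s
    have hs := s.2
    rw [up_dn, push_BB f hr hξ hN hf (by omega) (by omega) hs, if_pos (by omega)]
    rfl
  · intro s s' hss
    have hs := s.2
    have hs' := s'.2
    rw [up_dn, push_BB f hr hξ hN hf (by omega) (by omega) hs, if_neg (by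
      intro h
      apply hss
      apply Fin.ext
      omega)]
    exact map_zero _
  · intro s s'
    have hs := s.2
    have hs' := s'.2
    rw [tp_up, up_dn, ← pow_add, push_small f hr (pow_mem hξ _) (by omega)]
    exact map_zero _
  · intro t
    have ht := t.2
    omega
  · intro t
    exact up_mem f (pow_mem hξ _)
  · intro t
    have ht := t.2
    refine ⟨N, hN, ?_⟩
    rw [tp_up, up_dn, ← pow_add, show m + m = r by omega, hf]
    exact map_smul (C.push (Obj.lift (𝟙 X) (𝟙 X))) N 1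
  · intro t t' htt
    exfalso
    apply htt
    apply Fin.ext
    have ht := t.2
    have ht' := t'.2
    omega
  · intro s t
    have hs := s.2
    have ht := t.2
    rw [tp_up, up_dn, ← pow_add, push_small f hr (pow_mem hξ _) (by omega)]
    exact map_zero _
  · intro n z hn hz
    obtain ⟨x, rfl⟩ := h.generate n z hn hz
    -- the classes of the required form
    set P : H.A Z → Prop := fun z => ∃ (x x' : Fin m → H.A X) (y : Fin (r + 1 - 2 * m) → H.A X),
      z = ∑ s : Fin m, (H.act (H.cl (up C f (ξ ^ (s : ℕ)))) (x s) +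
        H.act (H.cl (tp C (dn C f (BB C f ξ N (r + 1 - m) r (m - 1 - s))))) (x' s)) +
        ∑ t, H.act (H.cl (up C f (ξ ^ m))) (y t) with hP
    have hadd : ∀ z z', P z → P z' → P (z + z') := by
      rintro _ _ ⟨x1, x2, y, rfl⟩ ⟨x1', x2', y', rfl⟩
      refine ⟨x1 + x1', x2 + x2', y + y', ?_⟩
      simp only [Pi.add_apply, act_map_add, Finset.sum_add_distrib]
      abel
    have hzero : P 0 := by
      refine ⟨0, 0, 0, ?_⟩
      simp only [Pi.zero_apply, TheoryData.act_map_zero, add_zero, Finset.sum_const_zero]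
    have hsum : ∀ (ι : Finset ℕ) (F : ℕ → H.A Z), (∀ i ∈ ι, P (F i)) → P (∑ i ∈ ι, F i) := by
      intro ι F
      induction ι using Finset.induction_on with
      | empty => intro _; rw [Finset.sum_empty]; exact hzero
      | insert a s ha ih =>
        intro h
        rw [Finset.sum_insert ha]
        exact hadd _ _ (h a (Finset.mem_insert_self a s))
          (ih fun i hi => h i (Finset.mem_insert_of_mem hi))
    have hα : ∀ (j : ℕ) (x : H.A X), j < m → P (H.cl ξ ^ j * H.pull f x) := by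
      intro j x hj
      refine ⟨fun s => if (s : ℕ) = j then x else 0, 0, 0, ?_⟩
      simp only [Pi.zero_apply, TheoryData.act_map_zero, add_zero, Finset.sum_const_zero]
      rw [Finset.sum_eq_single (⟨j, hj⟩ : Fin m)]
      · rw [if_pos rfl, act_up, map_pow]
      · intro s _ hs
        rw [if_neg (fun h => hs (Fin.ext h))]
        exact H.act_map_zero _
      · intro h
        exact absurd (Finset.mem_univ _) h
    have hβ : ∀ (j : ℕ) (x : H.A X), j < m →
        P (H.cl (BB C f ξ N (r + 1 - m) r j) * H.pull f x) := by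
      intro j x hj
      refine ⟨0, fun s => if m - 1 - (s : ℕ) = j then x else 0, 0, ?_⟩
      simp only [Pi.zero_apply, TheoryData.act_map_zero, add_zero, zero_add, Finset.sum_const_zero]
      rw [Finset.sum_eq_single (⟨m - 1 - j, by omega⟩ : Fin m)]
      · have e1 : m - 1 - (m - 1 - j) = j := by omega
        simp only [e1, if_true, tp_dn, act_up]
      · intro s _ hs
        rw [if_neg (fun h => hs (Fin.ext (by
          have := s.2
          simp only
          omega)))]
        exact H.act_map_zero _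
      · intro h
        exact absurd (Finset.mem_univ _) h
    apply hsum
    intro j hj
    have hj' := Finset.mem_range.1 hj
    rcases lt_or_ge j m with hjm | hjm
    · exact hα j _ hjm
    rcases lt_or_ge j (r + 1 - m) with hjm2 | hjm2
    · -- the middle term
      have e1 : j = m := by omega
      have e2 : r + 1 - 2 * m = 1 := by omega
      subst e1
      refine ⟨0, 0, fun _ => x j, ?_⟩
      simp only [Pi.zero_apply, TheoryData.act_map_zero, add_zero, zero_add, Finset.sum_const_zero]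
      rw [Finset.sum_const, Finset.card_univ, Fintype.card_fin, e2, one_smul, act_up, map_pow]
    · obtain ⟨i, rfl⟩ := Nat.exists_eq_add_of_le hjm2
      obtain ⟨w, hw⟩ := pow_eq f ξ hN (r + 1 - m) r i
      rw [← map_pow, hw, map_sum, Finset.sum_mul]
      apply hsum
      intro l hl
      have hl' := Finset.mem_range.1 hl
      have e1 : H.cl (C.pull f (w l) * BB C f ξ N (r + 1 - m) r l) * H.pull f (x (r + 1 - m + i)) =
          H.cl (BB C f ξ N (r + 1 - m) r l) * H.pull f (H.cl (w l) * x (r + 1 - m + i)) := by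
        rw [ch_comm C, map_mul, H.cl_pull, map_mul, mul_assoc]
      rw [e1]
      exact hβ l _ (by omega)

/-- **Fibrations by varieties with the cohomology of projective spaces.** -/
theorem exists_selfDual_of_projectiveLike (f : Z ⟶ X) {ξ : C.A Z} {r : ℕ}
    (h : ProjectiveLike H f ξ r)
    (hX : (Odd r ∧ ∃ p, IsCK H X p) ∨ ∃ p, IsCK H X p ∧ IsSelfDual C p) :
    ∃ π : ℕ → C.A (Z.prod Z), IsCK H Z π ∧ IsSelfDual C π := by
  obtain ⟨N, hM⟩ := metabolic_of_projectiveLike f h (m := (r + 1) / 2) (by omega) (by omega)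
  refine exists_selfDual hM (fun _ => ?_) (fun t => ?_)
  · rcases hX with ⟨_, hX⟩ | ⟨p, hp, _⟩
    · exact hX
    · exact ⟨p, hp⟩
  · rcases hX with ⟨⟨l, hl⟩, _⟩ | hX
    · exfalso
      have ht := t.2
      omega
    · exact hX

end weil

end Pool.Agent.Zk56.MB
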