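import Pool.Agent.Zk56.MB.Comp

/-!
# Self-dual Chow-Kunneth decompositions of metabolic sums
-/

set_option autoImplicit false
set_option linter.all false

open CategoryTheory AlgebraicGeometry

universe u v w

namespace Pool.Agent.Zk56.MB

open Pool.Agent.H914 Pool.Agent.H914.VarClass Pool.Agent.H914.VarClass.Obj Pool.Agent.W492.BB
  Pool.Agent.W550.Corr Pool.Agent.TH133 Pool.Agent.Y107 Pool.Agent.Zk50.SD Pool.Agent.Q73.LS

variable {k : Type u} [Field k] {𝒱 : VarClass k}
  {C : TheoryData.{u, v, 0} 𝒱 ℚ} [hC : IsChowProj C] {K : Type w} [Field K]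
  {H : WeilTheoryData.{u, v, w} C K} [hH : IsWeilProj H] {X Y Z : 𝒱.Obj}

include hC

/-- the total operator -/
noncomputable def TT (E G : Cor C Z) : Cor C Z :=
  E + tpR C Z E - E * tpR C Z E + (1 - E) * G * (1 - tpR C Z E)

include hH

/-- The final step: from the ring-theoretic data to the decomposition. -/
theorem exists_of_data {q g : ℕ → Cor C Z} {E G' : Cor C Z} (N : ℕ) (hN : 2 * Z.dim < N)
    (h : Data (tpR C Z) q g E) (hsd : ∀ n ≤ 2 * Z.dim, tpR C Z (g n) = g (2 * Z.dim - n))
    (hq : ∑ n ∈ Finset.range N, q n = E) (hg : ∑ n ∈ Finset.range N, g n = G')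
    (hqm : ∀ n, q n ∈ cor0 C Z) (hgm : ∀ n, g n ∈ cor0 C Z)
    (hqh : ∀ (n : ℕ) (m : ℤ) (a : H.A Z), a ∈ H.gr Z m → m ≠ n → actH C Z H (q n) a = 0)
    (hgh : ∀ (n : ℕ) (m : ℤ) (a : H.A Z), a ∈ H.gr Z m → m ≠ n → actH C Z H (g n) a = 0)
    (hgen : ∀ (n : ℕ) (a : H.A Z), n < Z.dim → a ∈ H.gr Z n →
      actH C Z H (TT E G') a = a) :
    ∃ π : ℕ → C.A (Z.prod Z), IsCK H Z π ∧ IsSelfDual C π := by
  set s := tpR C Z with hs'
  have hs : AntiInv s := tpR_antiInv C Z
  have hEm : E ∈ cor0 C Z := by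
    rw [← hq]
    exact (cor0 C Z).sum_mem fun n _ => hqm n
  have hsm : ∀ {a : Cor C Z}, a ∈ cor0 C Z → s a ∈ cor0 C Z := fun ha => tpR_mem ha
  have hFm : ∀ n, FF s q E n ∈ cor0 C Z := fun n =>
    (cor0 C Z).sub_mem (hqm n) ((cor0 C Z).smul_mem ((cor0 C Z).mul_mem (hqm n) (hsm hEm)) _)
  have hGm : ∀ n, GG s g E n ∈ cor0 C Z := fun n =>
    (cor0 C Z).mul_mem ((cor0 C Z).mul_mem ((cor0 C Z).sub_mem (cor0 C Z).one_mem hEm) (hgm n))
      ((cor0 C Z).sub_mem (cor0 C Z).one_mem (hsm hEm))
  have hFh : ∀ (n : ℕ) (m : ℤ) (a : H.A Z), a ∈ H.gr Z m → m ≠ n →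
      actH C Z H (FF s q E n) a = 0 := by
    intro n m a ha hm
    have h1 : actH C Z H (FF s q E n) a = actH C Z H (q n) a -
        actH C Z H (q n) (actH C Z H ((1 / 2 : ℚ) • s E) a) := by
      rw [FF, ← mul_smul_comm, map_sub, map_mul, LinearMap.sub_apply, Module.End.mul_apply]
    rw [h1, hqh n m a ha hm, hqh n m _ (actH_mem0 ((cor0 C Z).smul_mem (hsm hEm) _) ha) hm,
      sub_zero]
  have hGh : ∀ (n : ℕ) (m : ℤ) (a : H.A Z), a ∈ H.gr Z m → m ≠ n →
      actH C Z H (GG s g E n) a = 0 := by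
    intro n m a ha hm
    rw [GG, map_mul, map_mul, Module.End.mul_apply, Module.End.mul_apply,
      hgh n m _ (actH_mem0 ((cor0 C Z).sub_mem (cor0 C Z).one_mem (hsm hEm)) ha) hm, map_zero]
  have hsFh : ∀ (n : ℕ) (m : ℤ) (a : H.A Z), a ∈ H.gr Z m → m ≠ 2 * Z.dim - (n : ℤ) →
      actH C Z H (s (FF s q E n)) a = 0 := fun n m a ha hm =>
    act_tp_zero (hFm n) (hFh n) m a ha hm
  have hact : ∀ (n : ℕ) (m : ℤ) (a : H.A Z), n < Z.dim → a ∈ H.gr Z m →
      actH C Z H (PP s q g E Z.dim n) a = if m = n then a else 0 := by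
    intro n m a hn ha
    rw [PP, if_pos hn]
    by_cases hm : m = n
    · subst hm
      rw [if_pos rfl]
      have h1 := hgen n a hn ha
      rw [TT, ← hs', ← sum_all hs hq hg, map_sum, LinearMap.sum_apply] at h1
      simp only [map_add, LinearMap.add_apply] at h1
      rw [Finset.sum_add_distrib, Finset.sum_add_distrib] at h1
      have e1 : ∑ m ∈ Finset.range N, actH C Z H (FF s q E m) a = actH C Z H (FF s q E n) a := by
        refine Finset.sum_eq_single n (fun m _ hm => hFh m n a ha (by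
          intro h; exact hm (by exact_mod_cast h.symm))) fun h => ?_
        exact absurd (Finset.mem_range.2 (by omega)) h
      have e2 : ∑ m ∈ Finset.range N, actH C Z H (GG s g E m) a = actH C Z H (GG s g E n) a := by
        refine Finset.sum_eq_single n (fun m _ hm => hGh m n a ha (by
          intro h; exact hm (by exact_mod_cast h.symm))) fun h => ?_
        exact absurd (Finset.mem_range.2 (by omega)) h
      have e3 : ∑ m ∈ Finset.range N, actH C Z H (s (FF s q E m)) a =
          actH C Z H (s (FF s q E (2 * Z.dim - n))) a := by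
        refine Finset.sum_eq_single (2 * Z.dim - n) (fun m _ hm => hsFh m n a ha (by
          intro h; exact hm (by omega))) fun h => ?_
        exact absurd (Finset.mem_range.2 (by omega)) h
      rw [e1, e2, e3] at h1
      rw [map_add, map_add, LinearMap.add_apply, LinearMap.add_apply]
      exact h1
    · rw [if_neg hm, map_add, map_add, LinearMap.add_apply, LinearMap.add_apply, hFh n m a ha hm,
        hGh n m a ha hm, hsFh (2 * Z.dim - n) m a ha (by
          intro h
          apply hm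
          rw [h]
          push_cast [show n ≤ 2 * Z.dim by omega]
          ring), add_zero, add_zero]
  refine selfDual_of_half (C := C) (H := H) (X := Z) (PP s q g E Z.dim) ?_ ?_ (P_P hs h Z.dim)
    (P_sP hs h hsd) (sP_P hs h hsd) hact ?_
  · intro n
    rw [PP]
    split_ifs
    · exact (cor0 C Z).add_mem ((cor0 C Z).add_mem (hFm _) (hsm (hFm _))) (hGm _)
    · exact (cor0 C Z).zero_mem
  · intro n hn
    rw [PP, if_neg (by omega)]
  · intro n m a hn ha
    exact act_tp_of_act (H := H) (X := Z) (σ := (PP s q g E Z.dim n : Cor C Z)) (i := n) (by omega)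
      (fun m x hx => by
        have h3 := hact n m x hn hx
        exact h3) m a ha

lemma total_a {E G : Cor C Z} {z : H.A Z} (h1 : actH C Z H E z = z)
    (h2 : actH C Z H (tpR C Z E) z = 0) (h3 : actH C Z H G z = 0) :
    actH C Z H (TT E G) z = z := by
  simp only [TT, map_add, map_sub, map_mul, map_one, LinearMap.add_apply, LinearMap.sub_apply,
    Module.End.mul_apply, Module.End.one_apply, h1, h2, h3, map_zero, sub_zero, add_zero]

lemma total_b {E G : Cor C Z} {z : H.A Z} (h2 : actH C Z H (tpR C Z E) z = z) :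
    actH C Z H (TT E G) z = z := by
  simp only [TT, map_add, map_sub, map_mul, map_one, LinearMap.add_apply, LinearMap.sub_apply,
    Module.End.mul_apply, Module.End.one_apply, h2, map_zero, sub_zero, add_zero, sub_self]
  abel

lemma total_c {E G : Cor C Z} {z : H.A Z}
    (h2 : actH C Z H (tpR C Z E) z = 0) (h3 : actH C Z H G z = z) :
    actH C Z H (TT E G) z = z := by
  simp only [TT, map_add, map_sub, map_mul, map_one, LinearMap.add_apply, LinearMap.sub_apply,
    Module.End.mul_apply, Module.End.one_apply, h2, h3, map_zero, sub_zero, add_zero]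
  abel

variable {S T : Type} [Fintype S] [Fintype T]
    {XS : S → 𝒱.Obj} {c : S → ℕ} {α : ∀ s, C.A ((XS s).prod Z)} {β : ∀ s, C.A (Z.prod (XS s))}
    {YT : T → 𝒱.Obj} {e : T → ℕ} {γ : ∀ t, C.A ((YT t).prod Z)}

/-- **Metabolic sums have self-dual Chow-Kunneth decompositions.** -/
theorem exists_selfDual (h : MetabolicBelow H Z XS c α β YT e γ)
    (hX : ∀ s, ∃ p, IsCK H (XS s) p) (hY : ∀ t, ∃ p, IsCK H (YT t) p ∧ IsSelfDual C p) :
    ∃ π : ℕ → C.A (Z.prod Z), IsCK H Z π ∧ IsSelfDual C π := by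
  classical
  choose p hp using hX
  choose π hπ hπd using hY
  choose N hN hγ using h.selfγ
  -- transposed relations
  have h1 : ∀ s, C.comp (α s) (β s) = (fun _ => (1 : ℚ)) s • dg C (XS s) := by
    intro s
    rw [h.left]
    exact (one_smul ℚ _).symm
  have hβα : ∀ s, C.comp (tp C (β s)) (tp C (α s)) = (fun _ => (1 : ℚ)) s • dg C (XS s) := by
    intro s
    rw [← tp_comp C (ch_comm C), h.left, tp_dg]
    exact (one_smul ℚ _).symm
  have hβα' : ∀ s s', s ≠ s' → C.comp (tp C (β s)) (tp C (α s')) = 0 := by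
    intro s s' hs
    rw [← tp_comp C (ch_comm C), h.orth s' s (Ne.symm hs), tp_zero]
  have hγα : ∀ t s, C.comp (γ t) (tp C (α s)) = 0 := by
    intro t s
    have := congrArg (tp C) (h.orthαγ s t)
    rwa [tp_comp C (ch_comm C), tp_tp, tp_zero] at this
  -- the elements
  let q : ℕ → C.A (Z.prod Z) := fun n => ∑ s, C.comp (C.comp (β s) (sh (p s) (2 * c s) n)) (α s)
  let g : ℕ → C.A (Z.prod Z) := fun n =>
    ∑ t, C.comp ((N t)⁻¹ • C.comp (tp C (γ t)) (sh (π t) (2 * e t) n)) (γ t)
  let E : C.A (Z.prod Z) := ∑ s, C.comp (β s) (α s)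
  let G' : C.A (Z.prod Z) := ∑ t, C.comp ((N t)⁻¹ • tp C (γ t)) (γ t)
  have hq2 : ∀ n, q n = ∑ s, C.comp (β s) (C.comp (sh (p s) (2 * c s) n) (α s)) := by
    intro n
    simp only [q, comp_assoc C]
  have hg2 : ∀ n, g n = ∑ t, C.comp (tp C (γ t))
      ((N t)⁻¹ • C.comp (sh (π t) (2 * e t) n) (γ t)) := by
    intro n
    simp only [g, smul_comp'', comp_smul'', comp_assoc C]
  have hG2 : G' = ∑ t, C.comp (tp C (γ t)) ((N t)⁻¹ • γ t) := by
    simp only [G', smul_comp'', comp_smul'']
  have hsE : tp C E = ∑ s, C.comp (tp C (α s)) (tp C (β s)) := by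
    simp only [E]
    rw [tp_sum]
    exact Finset.sum_congr rfl fun s _ => tp_comp C (ch_comm C) _ _
  have hsq : ∀ n, tp C (q n) =
      ∑ s, C.comp (tp C (α s)) (tp C (C.comp (β s) (sh (p s) (2 * c s) n))) := by
    intro n
    simp only [q]
    rw [tp_sum]
    exact Finset.sum_congr rfl fun s _ => tp_comp C (ch_comm C) _ _
  have hdata : Data (A := Cor C Z) (tpR C Z) q g E := by
    refine ⟨?_, ?_, ?_, ?_, ?_, ?_, ?_, ?_, ?_, ?_, ?_⟩
    · intro m n
      change C.comp (X := Z) (Y := Z) (Z := Z) (q n) (q m) = if m = n then q m else 0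
      rw [hq2 m]
      simp only [q]
      rw [comp_sum_diag _ _ _ _ _ h1 h.orth]
      by_cases hmn : m = n
      · subst hmn
        rw [if_pos rfl]
        refine Finset.sum_congr rfl fun s _ => ?_
        rw [one_smul, comp_assoc C, ← comp_assoc C (sh _ _ _), sh_comp (hp s), if_pos rfl]
      · rw [if_neg hmn]
        refine Finset.sum_eq_zero fun s _ => ?_
        rw [comp_assoc C, ← comp_assoc C (sh _ _ _), sh_comp (hp s), if_neg (Ne.symm hmn),
          zero_comp, comp_zero, smul_zero]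
    · intro m n
      change C.comp (X := Z) (Y := Z) (Z := Z) (q n) (tp C (q m)) = 0
      rw [hsq]
      exact comp_sum_zero _ _ _ _ h.isotropic
    · intro m n
      change C.comp (X := Z) (Y := Z) (Z := Z) (g n) (g m) = if m = n then g m else 0
      rw [hg2 m]
      simp only [g]
      rw [comp_sum_diag _ _ _ _ N hγ h.orthγ]
      by_cases hmn : m = n
      · subst hmn
        rw [if_pos rfl]
        refine Finset.sum_congr rfl fun t _ => ?_
        simp only [smul_comp'', comp_smul'']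
        rw [comp_assoc C (tp C (γ t)), ← comp_assoc C (sh (π t) _ _), sh_comp (hπ t), if_pos rfl,
          smul_smul, mul_inv_cancel₀ (hN t), one_smul]
      · rw [if_neg hmn]
        refine Finset.sum_eq_zero fun t _ => ?_
        rw [smul_comp'', comp_smul'', comp_assoc C, ← comp_assoc C (sh _ _ _), sh_comp (hπ t),
          if_neg (Ne.symm hmn), zero_comp, comp_zero, smul_zero, smul_zero, smul_zero]
    · intro m n
      change C.comp (X := Z) (Y := Z) (Z := Z) (q n) (g m) = 0
      rw [hg2]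
      exact comp_sum_zero _ _ _ _ h.orthαγ
    · intro m n
      change C.comp (X := Z) (Y := Z) (Z := Z) (g n) (tp C (q m)) = 0
      rw [hsq]
      exact comp_sum_zero _ _ _ _ hγα
    · intro n
      change C.comp (X := Z) (Y := Z) (Z := Z) E (q n) = q n
      rw [hq2 n]
      simp only [E]
      rw [comp_sum_diag _ _ _ _ _ h1 h.orth]
      exact Finset.sum_congr rfl fun s _ => one_smul ℚ _
    · intro n
      change C.comp (X := Z) (Y := Z) (Z := Z) (q n) (tp C E) = 0
      rw [hsE]
      exact comp_sum_zero _ _ _ _ h.isotropic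
    · intro n
      change C.comp (X := Z) (Y := Z) (Z := Z) E (tp C (q n)) = 0
      rw [hsq]
      exact comp_sum_zero _ _ _ _ h.isotropic
    · change C.comp (X := Z) (Y := Z) (Z := Z) E (tp C E) = 0
      rw [hsE]
      exact comp_sum_zero _ _ _ _ h.isotropic
    · intro n
      change C.comp (X := Z) (Y := Z) (Z := Z) E (g n) = 0
      rw [hg2]
      exact comp_sum_zero _ _ _ _ h.orthαγ
    · intro n
      change C.comp (X := Z) (Y := Z) (Z := Z) (g n) (tp C E) = 0
      rw [hsE]
      exact comp_sum_zero _ _ _ _ hγα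
  -- degrees
  have hβm : ∀ s, β s ∈ C.gr (Z.prod (XS s)) ((Z.dim : ℤ) + -(c s)) := fun s => h.degβ s
  have hαm : ∀ s, α s ∈ C.gr ((XS s).prod Z) (((XS s).dim : ℤ) + c s) := fun s => h.degα s
  have hγm : ∀ t, γ t ∈ C.gr ((YT t).prod Z) (((YT t).dim : ℤ) + e t) := fun t => h.degγ t
  have hγm' : ∀ t, tp C (γ t) ∈ C.gr (Z.prod (YT t)) ((Z.dim : ℤ) + -(e t)) := by
    intro t
    have h2 := tp_mem C (hγm t)
    have e1 : ((YT t).dim : ℤ) + e t = (Z.dim : ℤ) + -(e t) := by
      rw [h.dimγ t]; push_cast; ring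
    rwa [e1] at h2
  have hshm : ∀ (s : S) n, sh (p s) (2 * c s) n ∈ C.gr ((XS s).prod (XS s)) (((XS s).dim : ℤ) + 0) := by
    intro s n
    rw [add_zero]
    exact sh_mem (hp s) _ _
  have hshm' : ∀ (t : T) n, sh (π t) (2 * e t) n ∈ C.gr ((YT t).prod (YT t)) (((YT t).dim : ℤ) + 0) := by
    intro t n
    rw [add_zero]
    exact sh_mem (hπ t) _ _
  have hqm : ∀ n, q n ∈ C.gr (Z.prod Z) Z.dim := by
    intro n
    simp only [q]
    refine Submodule.sum_mem _ fun s _ => ?_
    have := comp_mem C (comp_mem C (hβm s) (hshm s n)) (hαm s)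
    rwa [show (Z.dim : ℤ) + (-(c s : ℤ) + 0 + c s) = Z.dim by ring] at this
  have hgm : ∀ n, g n ∈ C.gr (Z.prod Z) Z.dim := by
    intro n
    simp only [g]
    refine Submodule.sum_mem _ fun t _ => ?_
    have := comp_mem C (Submodule.smul_mem _ (N t)⁻¹ (comp_mem C (hγm' t) (hshm' t n))) (hγm t)
    rwa [show (Z.dim : ℤ) + (-(e t : ℤ) + 0 + e t) = Z.dim by ring] at this
  -- the bound
  obtain ⟨M, hM⟩ : ∃ M, M = 2 * Z.dim + 1 + (∑ s, (2 * (XS s).dim + 2 * c s + 1) +
    ∑ t, (2 * (YT t).dim + 2 * e t + 1)) := ⟨_, rfl⟩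
  have hMs : ∀ s, 2 * (XS s).dim + 2 * c s + 1 ≤ M := by
    intro s
    have := Finset.single_le_sum (f := fun s => 2 * (XS s).dim + 2 * c s + 1)
      (fun _ _ => Nat.zero_le _) (Finset.mem_univ s)
    omega
  have hMt : ∀ t, 2 * (YT t).dim + 2 * e t + 1 ≤ M := by
    intro t
    have := Finset.single_le_sum (f := fun t => 2 * (YT t).dim + 2 * e t + 1)
      (fun _ _ => Nat.zero_le _) (Finset.mem_univ t)
    omega
  have hqs : ∑ n ∈ Finset.range M, q n = E := by
    change ∑ n ∈ Finset.range M, (∑ s, C.comp (C.comp (β s) (sh (p s) (2 * c s) n)) (α s)) =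
      ∑ s, C.comp (β s) (α s)
    rw [Finset.sum_comm]
    refine Finset.sum_congr rfl fun s _ => ?_
    rw [← sum_comp, ← comp_sum, sh_sum (hp s) _ _ (hMs s), comp_dg]
  have hgs : ∑ n ∈ Finset.range M, g n = G' := by
    change ∑ n ∈ Finset.range M, (∑ t, C.comp ((N t)⁻¹ • C.comp (tp C (γ t))
      (sh (π t) (2 * e t) n)) (γ t)) = ∑ t, C.comp ((N t)⁻¹ • tp C (γ t)) (γ t)
    rw [Finset.sum_comm]
    refine Finset.sum_congr rfl fun t _ => ?_
    rw [← sum_comp, ← Finset.smul_sum, ← comp_sum, sh_sum (hπ t) _ _ (hMt t), comp_dg]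
  refine exists_of_data (q := q) (g := g) (E := E) (G' := G') M (by omega) hdata ?_ hqs hgs hqm
    hgm ?_ ?_ ?_
  · intro n hn
    change tp C (g n) = g (2 * Z.dim - n)
    simp only [g]
    rw [tp_sum]
    refine Finset.sum_congr rfl fun t _ => ?_
    have h3 : tp C (sh (π t) (2 * e t) n) = sh (π t) (2 * e t) (2 * Z.dim - n) := by
      have h4 := sh_tp (hπ t) (2 * e t) (2 * e t) n (by omega) (by rw [← h.dimγ t]; exact hn)
      rw [dualCK_self (hπd t) (hπ t).out, ← h.dimγ t] at h4
      rw [h4]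
      congr 1
      omega
    rw [smul_comp'', tp_smul, tp_comp C (ch_comm C), tp_comp C (ch_comm C), tp_tp, h3,
      smul_comp'', comp_assoc C]
  · intro n m a ha hm
    change H.act (H.cl (q n)) a = 0
    simp only [q]
    rw [map_sum, act_sum]
    refine Finset.sum_eq_zero fun s _ => ?_
    rw [actH_comp, actH_comp]
    have h2 := actH_mem H (hβm s) ha
    rw [sh_act (hp s) _ _ _ h2, if_neg (by push_cast; omega)]
    exact H.act_map_zero _
  · intro n m a ha hm
    change H.act (H.cl (g n)) a = 0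
    simp only [g]
    rw [map_sum, act_sum]
    refine Finset.sum_eq_zero fun t _ => ?_
    rw [smul_comp'', ← comp_smul'', actH_comp, actH_comp]
    have h2 := actH_mem H (hγm' t) ha
    rw [sh_act (hπ t) _ _ _ h2, if_neg (by push_cast; omega)]
    exact H.act_map_zero _
  · intro n a hn ha
    obtain ⟨x, x', y, rfl⟩ := h.generate n a hn ha
    have gα : ∀ (s : S) (x : H.A (XS s)), actH C Z H (TT E G') (H.act (H.cl (α s)) x) =
          H.act (H.cl (α s)) x := by
      intro s x
      refine total_a ?_ ?_ ?_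
      · change H.act (H.cl E) (H.act (H.cl (α s)) x) = _
        rw [← actH_comp, comp_diag _ _ _ _ h1 h.orth, one_smul]
      · change H.act (H.cl (tp C E)) (H.act (H.cl (α s)) x) = _
        rw [← actH_comp, hsE, comp_zero' _ _ _ (h.isotropic s), actH_zero]
      · change H.act (H.cl G') (H.act (H.cl (α s)) x) = _
        rw [← actH_comp, hG2, comp_zero' _ _ _ (h.orthαγ s), actH_zero]
    have gβ : ∀ (s : S) (x : H.A (XS s)), actH C Z H (TT E G') (H.act (H.cl (tp C (β s))) x) =
          H.act (H.cl (tp C (β s))) x := by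
      intro s x
      refine total_b ?_
      change H.act (H.cl (tp C E)) (H.act (H.cl (tp C (β s))) x) = _
      rw [← actH_comp, hsE, comp_diag _ _ _ _ hβα hβα', one_smul]
    have gγ : ∀ (t : T) (x : H.A (YT t)), actH C Z H (TT E G') (H.act (H.cl (γ t)) x) =
          H.act (H.cl (γ t)) x := by
      intro t x
      refine total_c ?_ ?_
      · change H.act (H.cl (tp C E)) (H.act (H.cl (γ t)) x) = _
        rw [← actH_comp, hsE, comp_zero' _ _ _ (hγα t), actH_zero]
      · change H.act (H.cl G') (H.act (H.cl (γ t)) x) = _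
        rw [← actH_comp, hG2, comp_diag _ _ _ _ hγ h.orthγ, smul_smul, mul_inv_cancel₀ (hN t),
          one_smul]
    rw [map_add, map_sum, map_sum]
    simp only [map_add, gγ]
    congr 1
    refine Finset.sum_congr rfl fun s _ => ?_
    rw [gα, gβ]

end Pool.Agent.Zk56.MB
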