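import Pool.Agent.TH133.Defs

/-!
# Metabolic sums of motives: the definitions used in the result
-/

set_option autoImplicit false

open CategoryTheory AlgebraicGeometry

universe u v w

namespace Pool.Agent.Zk56.MB.Pub

open Pool.Agent.H914 Pool.Agent.H914.VarClass Pool.Agent.H914.VarClass.Obj Pool.Agent.W492.BB
  Pool.Agent.W550.Corr Pool.Agent.TH133

variable {k : Type u} [Field k] {𝒱 : VarClass k}

section chow

variable (C : TheoryData.{u, v, 0} 𝒱 ℚ)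

/-- `α s : h(X s)(-c s) → h(Z)` and `β s : h(Z) → h(X s)(-c s)` are correspondences with
`β s' ∘ α s = δ_{ss'}` and `ᵗ(α s') ∘ α s = 0` (the `α s` are isotropic). -/
structure IsotropicFactors {Z : 𝒱.Obj} {S : Type} (X : S → 𝒱.Obj) (c : S → ℕ)
    (α : ∀ s, C.A ((X s).prod Z)) (β : ∀ s, C.A (Z.prod (X s))) : Prop where
  degα : ∀ s, C.Deg (((X s).dim : ℤ) + c s) (α s)
  degβ : ∀ s, C.Deg ((Z.dim : ℤ) - c s) (β s)
  left : ∀ s, C.comp (α s) (β s) = dg C (X s)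
  orth : ∀ s s', s ≠ s' → C.comp (α s) (β s') = 0
  isotropic : ∀ s s', C.comp (α s) (tp C (α s')) = 0

/-- `γ t : h(Y t)(-e t) → h(Z)`, where `dim Z = dim (Y t) + 2 e t`, are correspondences with
`ᵗ(γ t) ∘ γ t = N ≠ 0` and `ᵗ(γ t') ∘ γ t = 0` for `t ≠ t'`. -/
structure Isometries {Z : 𝒱.Obj} {T : Type} (Y : T → 𝒱.Obj) (e : T → ℕ)
    (γ : ∀ t, C.A ((Y t).prod Z)) : Prop where
  dimγ : ∀ t, Z.dim = (Y t).dim + 2 * e t
  degγ : ∀ t, C.Deg (((Y t).dim : ℤ) + e t) (γ t)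
  selfγ : ∀ t, ∃ N : ℚ, N ≠ 0 ∧ C.comp (γ t) (tp C (γ t)) = N • dg C (Y t)
  orthγ : ∀ t t', t ≠ t' → C.comp (γ t) (tp C (γ t')) = 0

/-- `j^* j_*` is the intersection with `- ξ` (self-intersection formula). -/
def NormalClass {Z E : 𝒱.Obj} (j : E ⟶ Z) (ξ : C.A E) : Prop :=
  C.comp (C.graph j) (C.cograph j) = C.mulCorr (-ξ)

/-- The class `f_* (x y)`. -/
noncomputable def pair {Z X : 𝒱.Obj} (f : Z ⟶ X) (x y : C.A Z) : C.A X := C.push f (x * y)

/-- Finitely many classes `a s` of degree `c s ≤ r / 2` and `b s` of degree `r - c s` on `Z`, of relative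
dimension `r` over `X`, with `f_* (a s b t) = δ_{st}` if `c s = c t`, and `f_* (a s a t) = 0` if
`c s + c t = r`. -/
structure HyperbolicClasses {Z X : 𝒱.Obj} (f : Z ⟶ X) (r : ℕ) {S : Type} (c : S → ℕ)
    (a b : S → C.A Z) : Prop where
  dim_eq : Z.dim = X.dim + r
  low : ∀ s, 2 * c s ≤ r
  dega : ∀ s, C.Deg (c s) (a s)
  degb : ∀ s, C.Deg ((r : ℤ) - c s) (b s)
  dual : ∀ s, pair C f (a s) (b s) = 1
  orth : ∀ s t, s ≠ t → c s = c t → pair C f (a s) (b t) = 0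
  isotropic : ∀ s t, c s + c t = r → pair C f (a s) (a t) = 0

end chow

variable {C : TheoryData.{u, v, 0} 𝒱 ℚ} {K : Type w} [Field K] (H : WeilTheoryData.{u, v, w} C K)

/-- `X` has a Chow-Kunneth decomposition. -/
def HasCK (X : 𝒱.Obj) : Prop := ∃ p, IsCK H X p

/-- `X` has a self-dual Chow-Kunneth decomposition. -/
def HasSelfDualCK (X : 𝒱.Obj) : Prop := ∃ p, IsCK H X p ∧ IsSelfDual C p

/-- The action `Γ (x)` of the correspondence `Γ` on the cohomology. -/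
noncomputable def im {X Z : 𝒱.Obj} (Γ : C.A (X.prod Z)) (x : H.A X) : H.A Z := H.act (H.cl Γ) x

/-- The class `a f^* (x)`. -/
noncomputable def clPull {Z X : 𝒱.Obj} (f : Z ⟶ X) (a : C.A Z) (x : H.A X) : H.A Z :=
  H.cl a * H.pull f x

/-- Every class in `H^n(Z)`, `n < dim Z`, is a sum of classes `α s (x)`, `ᵗ(β s) (x')`, `γ t (y)`. -/
def SpanBelow {Z : 𝒱.Obj} {S T : Type} [Fintype S] [Fintype T]
    (X : S → 𝒱.Obj) (α : ∀ s, C.A ((X s).prod Z)) (β : ∀ s, C.A (Z.prod (X s)))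
    (Y : T → 𝒱.Obj) (γ : ∀ t, C.A ((Y t).prod Z)) : Prop :=
  ∀ (n : ℕ) (z : H.A Z), n < Z.dim → H.Deg n z →
    ∃ (x x' : ∀ s, H.A (X s)) (y : ∀ t, H.A (Y t)),
      z = ∑ s, (im H (α s) (x s) + im H (tp C (β s)) (x' s)) + ∑ t, im H (γ t) (y t)

/-- The cohomology of `Z` below the middle degree is spanned by a metabolic and a self-dual part:
finitely many isotropic factors `α s : h(X s)(-c s) → h(Z)` (retractions `β s`) together with their
duals `ᵗ(β s)`, and finitely many isometries (up to factors) `γ t : h(Y t)(-e t) → h(Z)` with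
`ᵗ(γ t) ∘ α s = 0`. -/
structure MetabolicBelow {Z : 𝒱.Obj} {S T : Type} [Fintype S] [Fintype T]
    (X : S → 𝒱.Obj) (c : S → ℕ) (α : ∀ s, C.A ((X s).prod Z)) (β : ∀ s, C.A (Z.prod (X s)))
    (Y : T → 𝒱.Obj) (e : T → ℕ) (γ : ∀ t, C.A ((Y t).prod Z)) : Prop where
  factors : IsotropicFactors C X c α β
  isometries : Isometries C Y e γ
  orth : ∀ s t, C.comp (α s) (tp C (γ t)) = 0
  span : SpanBelow H X α β Y γ

/-- Every class in `H^n(Z)`, `n < dim Z`, is a sum of classes `a s f^* (x)`, `b s f^* (x')`. -/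
def ClassesSpanBelow {Z X : 𝒱.Obj} (f : Z ⟶ X) {S : Type} [Fintype S] (a b : S → C.A Z) : Prop :=
  ∀ (n : ℕ) (z : H.A Z), n < Z.dim → H.Deg n z →
    ∃ x x' : S → H.A X, z = ∑ s, (clPull H f (a s) (x s) + clPull H f (b s) (x' s))

/-- Every class in `H^n(Z)`, `n < dim Z`, is a sum of a class `p^* (y)` and of classes
`j_* (ξ^s g^* (x))`, `s < r`. -/
def BlowUpSpanBelow {W X Z E : 𝒱.Obj} (p : Z ⟶ W) (j : E ⟶ Z) (g : E ⟶ X) (ξ : C.A E)
    (r : ℕ) : Prop :=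
  ∀ (n : ℕ) (z : H.A Z), n < Z.dim → H.Deg n z → ∃ (y : H.A W) (x : ℕ → H.A X),
    z = H.pull p y + ∑ s ∈ Finset.range r, H.push j (clPull H g (ξ ^ s) (x s))

/-- Formal properties of the blow-up `p : Z → W` of `i : X → W` of codimension `r + 1`, with
exceptional divisor `j : E → Z`, `g : E → X`, and `ξ ∈ CH^1(E)` minus the class of the normal bundle
of `E` (the hyperplane class of the projective bundle `E` over `X`):
`p j = i g`, `p_* 1 = 1`, `j^* j_* = - ξ`, `g_* (ξ^r) = 1`, and every class in `H^n(Z)`, `n < dim Z`, is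
a sum of a class `p^* (y)` and of classes `j_* (ξ^s g^* (x))`, `s < r`. -/
structure BlowUpLike {W X Z E : 𝒱.Obj} (p : Z ⟶ W) (i : X ⟶ W) (j : E ⟶ Z) (g : E ⟶ X) (ξ : C.A E)
    (r : ℕ) : Prop where
  dimZ : Z.dim = W.dim
  dimW : W.dim = X.dim + r + 1
  square : j ≫ p = g ≫ i
  birational : C.push p 1 = 1
  dimE : E.dim = X.dim + r
  deg : C.Deg 1 ξ
  push : C.push g (ξ ^ r) = 1
  normal : NormalClass C j ξ
  span : BlowUpSpanBelow H p j g ξ r

end Pool.Agent.Zk56.MB.Pub
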